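import Pool.Agent.Lib.MP_9c5702_nt.Mean
import Pool.Agent.Lib.MP_488d93_nt.Brun2

/-! Counting `u` with `D ∣ n - u^3`, and mean values of divisor weights of `n - u^3`. -/

set_option autoImplicit false

namespace Pool.Agent.Lib.MP_9c5702_nt.Save

open Finset

/-- The absolute value of `n - u^3`. -/
def mm (n u : ℕ) : ℕ := ((n : ℤ) - (u : ℤ) ^ 3).natAbs

/-- The members of `P` that divide `n - u^3`. -/
def PP (P : Finset ℕ) (n u : ℕ) : Finset ℕ := P.filter fun p => u ^ 3 ≡ n [MOD p]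

/-- Divisor weights with an exponent depending on the prime. -/
def gw (e : ℕ → ℕ) (m : ℕ) : ℕ := ∏ p ∈ m.primeFactors, (m.factorization p + 1) ^ e p

theorem dvd_mm {D n u : ℕ} : D ∣ mm n u ↔ u ^ 3 ≡ n [MOD D] := by
  rw [mm, Nat.modEq_iff_dvd, Int.natCast_dvd]
  push_cast
  rfl

theorem mm_ne {n u : ℕ} (h : u ^ 3 ≠ n) : mm n u ≠ 0 := by
  rw [mm, Int.natAbs_ne_zero, sub_ne_zero]
  exact_mod_cast h.symm

theorem mm_le {n u U : ℕ} (hn : n ≤ U ^ 3) (hu : u ≤ U) : mm n u ≤ U ^ 3 := by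
  have h1 : (u : ℤ) ^ 3 ≤ (U : ℤ) ^ 3 := by exact_mod_cast Nat.pow_le_pow_left hu 3
  have h2 : (n : ℤ) ≤ (U : ℤ) ^ 3 := by exact_mod_cast hn
  have h3 : (0 : ℤ) ≤ (u : ℤ) ^ 3 := by positivity
  have h4 : ((mm n u : ℕ) : ℤ) ≤ (U : ℤ) ^ 3 := by
    rw [mm, Int.natCast_natAbs, abs_le]
    constructor <;> omega
  exact_mod_cast h4

theorem card_modEq_le (U t D : ℕ) :
    (((Ioc 0 U).filter fun u => u % D = t).card : ℝ) ≤ U / D + 1 := by
  have h1 : ((Ioc 0 U).filter fun u => u % D = t).card ≤ (range (U / D + 1)).card := by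
    refine card_le_card_of_injOn (fun u => u / D) (fun u hu => ?_) fun u hu v hv h => ?_
    · have := (mem_Ioc.1 (mem_filter.1 hu).1).2
      simp only [coe_range, Set.mem_Iio]
      exact Nat.lt_succ_of_le (Nat.div_le_div_right this)
    · have h2 := (mem_filter.1 hu).2
      have h3 := (mem_filter.1 hv).2
      simp only at h
      rw [← Nat.div_add_mod u D, ← Nat.div_add_mod v D, h, h2, h3]
  rw [card_range] at h1
  have h2 : ((U / D : ℕ) : ℝ) ≤ U / D := Nat.cast_div_le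
  have h3 : (((Ioc 0 U).filter fun u => u % D = t).card : ℝ) ≤ (U / D : ℕ) + 1 := by
    exact_mod_cast h1
  linarith

theorem count_le (n U : ℕ) {D : ℕ} (hD : D ≠ 0) (hU : D ≤ U) :
    (((Ioc 0 U).filter fun u => u ^ 3 ≡ n [MOD D]).card : ℝ) ≤ 2 * U * (rho n D / D) := by
  have hD0 : (0 : ℝ) < D := by positivity
  rw [rho_eq_card n D hD, card_eq_sum_card_fiberwise (f := fun u => u % D)
    (t := (range D).filter fun z => z ^ 3 ≡ n [MOD D]) (fun u hu => by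
      simp only [coe_filter, mem_range, Set.mem_ofPred_eq] at hu ⊢
      exact ⟨Nat.mod_lt _ (Nat.pos_of_ne_zero hD), ((Nat.mod_modEq u D).pow 3).trans hu.2⟩)]
  push_cast
  refine (sum_le_card_nsmul _ _ (U / D + 1 : ℝ) fun t _ => ?_).trans ?_
  · refine le_trans ?_ (card_modEq_le U t D)
    exact_mod_cast card_le_card fun u hu => by
      simp only [mem_filter] at hu ⊢
      exact ⟨hu.1.1, hu.2⟩
  · rw [nsmul_eq_mul]
    have h1 : (1 : ℝ) ≤ U / D := by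
      rw [le_div_iff₀ hD0, one_mul]
      exact_mod_cast hU
    set c := ((((range D).filter fun z => z ^ 3 ≡ n [MOD D]).card : ℕ) : ℝ)
    have hc : 0 ≤ c := Nat.cast_nonneg _
    calc c * (U / D + 1) ≤ c * (U / D + U / D) := by gcongr
      _ = _ := by ring

theorem rho_prod_le (n : ℕ) (S : Finset ℕ) (hS : ∀ p ∈ S, p.Prime) :
    rho n (∏ p ∈ S, p) ≤ 3 ^ S.card := by
  induction S using Finset.induction_on with
  | empty => simp [rho_one]
  | insert q S hq ih =>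
    have hS' : ∀ p ∈ S, p.Prime := fun p hp => hS p (mem_insert_of_mem hp)
    have q0 := hS q (mem_insert_self _ _)
    rw [prod_insert hq, card_insert_of_notMem hq, rho_mul n (Nat.Coprime.prod_right fun p hp =>
      (Nat.coprime_primes q0 (hS' p hp)).2 fun e => hq (e ▸ hp)), pow_succ']
    have h1 := rho_le q q0 1 n
    simp only [pow_one, mul_one, Nat.reduceDiv, pow_zero] at h1
    exact Nat.mul_le_mul h1 (ih hS')

/-- the number of `u` for which all primes of `S` divide `n - u^3` -/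
theorem count_set_le (n U : ℕ) (S : Finset ℕ) (hS : ∀ p ∈ S, p.Prime) (hU : ∏ p ∈ S, p ≤ U) :
    (((Ioc 0 U).filter fun u => ∀ p ∈ S, u ^ 3 ≡ n [MOD p]).card : ℝ) ≤
      2 * U * ∏ p ∈ S, (3 / p : ℝ) := by
  have h0 : ∏ p ∈ S, p ≠ 0 := prod_ne_zero_iff.2 fun p hp => (hS p hp).ne_zero
  have h1 := count_le n U h0 hU
  have h2 : ((Ioc 0 U).filter fun u => ∀ p ∈ S, u ^ 3 ≡ n [MOD p]) =
      (Ioc 0 U).filter fun u => u ^ 3 ≡ n [MOD ∏ p ∈ S, p] := by
    refine filter_congr fun u _ => ?_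
    simp only [← dvd_mm]
    exact (MP_488d93_nt.prod_dvd_iff hS).symm
  rw [h2]
  refine h1.trans ?_
  rw [prod_div_distrib, prod_const, Nat.cast_prod]
  have h3 : (rho n (∏ p ∈ S, p) : ℝ) ≤ 3 ^ S.card := by exact_mod_cast rho_prod_le n S hS
  gcongr

/-- `u` for which the square of a medium prime divides `n - u^3` -/
theorem count_sq_le {n U Y0 Y1 : ℕ} (hn : n ≠ 0) (h0 : 1 ≤ Y0) (hU : Y1 ^ 2 ≤ U) :
    (((Ioc 0 U).filter fun u => ∃ p ∈ Ioc Y0 Y1, p.Prime ∧ u ^ 3 ≡ n [MOD p ^ 2]).card : ℝ) ≤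
      2 * U * ((3 + Nat.log 2 n) / Y0) := by
  set P := (Ioc Y0 Y1).filter Nat.Prime with hP
  have hY : (0 : ℝ) < Y0 := by exact_mod_cast h0
  have h1 : ((Ioc 0 U).filter fun u => ∃ p ∈ Ioc Y0 Y1, p.Prime ∧ u ^ 3 ≡ n [MOD p ^ 2]) ⊆
      P.biUnion fun p => (Ioc 0 U).filter fun u => u ^ 3 ≡ n [MOD p ^ 2] := by
    intro u hu
    obtain ⟨h1, p, h2, h3, h4⟩ := mem_filter.1 hu
    exact mem_biUnion.2 ⟨p, mem_filter.2 ⟨h2, h3⟩, mem_filter.2 ⟨h1, h4⟩⟩
  have h2 := (card_le_card h1).trans card_biUnion_le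
  have h3 : ∀ p ∈ P, (((Ioc 0 U).filter fun u => u ^ 3 ≡ n [MOD p ^ 2]).card : ℝ) ≤
      2 * U * (3 * (1 / (p : ℝ) ^ 2) + if p ∣ n then 1 / (Y0 : ℝ) else 0) := by
    intro p hp
    obtain ⟨h4, h5⟩ := mem_filter.1 hp
    obtain ⟨h6, h7⟩ := mem_Ioc.1 h4
    refine (count_le n U (pow_ne_zero 2 h5.ne_zero)
      ((Nat.pow_le_pow_left h7 2).trans hU)).trans ?_
    have hp0 : (0 : ℝ) < p := by exact_mod_cast h5.pos
    push_cast
    gcongr
    split_ifs with h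
    · have h8 : (rho n (p ^ 2) : ℝ) ≤ p := by
        exact_mod_cast (rho_le_pow (k := 1) h5 h).trans_eq (pow_one p)
      have h9 : 1 / (p : ℝ) ≤ 1 / Y0 := one_div_le_one_div_of_le hY (by exact_mod_cast h6.le)
      calc (rho n (p ^ 2) : ℝ) / (p : ℝ) ^ 2 ≤ (p : ℝ) / (p : ℝ) ^ 2 := by gcongr
        _ = 1 / (p : ℝ) := by field_simp
        _ ≤ _ := by
          have : 0 ≤ 3 * (1 / (p : ℝ) ^ 2) := by positivity
          linarith
    · have h8 : (rho n (p ^ 2) : ℝ) ≤ 3 := by exact_mod_cast rho_le_three h5 h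
      rw [add_zero, mul_one_div]
      gcongr
  have h4 : ∑ p ∈ P, 1 / (p : ℝ) ^ 2 ≤ 1 / (Y0 : ℝ) := by
    refine (sum_le_sum_of_subset_of_nonneg (filter_subset _ _) fun _ _ _ => by positivity).trans ?_
    have := sum_Ioc_inv_sq_le_sub (α := ℝ) (k := Y0) (n := max Y0 Y1) (by omega) (le_max_left _ _)
    refine le_trans ?_ (this.trans ?_)
    · simp only [one_div]
      exact sum_le_sum_of_subset_of_nonneg (Ioc_subset_Ioc_right (le_max_right _ _))
        fun _ _ _ => by positivity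
    · rw [one_div]
      have : (0 : ℝ) ≤ ((max Y0 Y1 : ℕ) : ℝ)⁻¹ := by positivity
      linarith
  have h5 : ∑ p ∈ P, (if p ∣ n then 1 / (Y0 : ℝ) else 0) ≤ Nat.log 2 n / Y0 := by
    rw [← sum_filter, sum_const, nsmul_eq_mul, mul_one_div]
    gcongr
    refine Nat.le_log_of_pow_le (by norm_num) ?_
    refine le_trans (pow_card_le_prod _ (fun p => p) 2 fun p hp =>
      (mem_filter.1 (mem_filter.1 hp).1).2.two_le) (Nat.le_of_dvd (Nat.pos_of_ne_zero hn) ?_)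
    exact (MP_488d93_nt.prod_dvd_iff fun p hp => (mem_filter.1 (mem_filter.1 hp).1).2).2
      fun p hp => (mem_filter.1 hp).2
  calc _ ≤ ∑ p ∈ P, (((Ioc 0 U).filter fun u => u ^ 3 ≡ n [MOD p ^ 2]).card : ℝ) := by
        exact_mod_cast h2
    _ ≤ _ := sum_le_sum h3
    _ ≤ _ := by
        rw [← mul_sum, sum_add_distrib, ← mul_sum, add_div]
        gcongr
        rw [← mul_one_div]
        gcongr

theorem gw_eq (e : ℕ → ℕ) {m : ℕ} (S : Finset ℕ) (h : m.primeFactors ⊆ S) :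
    gw e m = ∏ p ∈ S, (m.factorization p + 1) ^ e p := by
  refine prod_subset h fun p _ hp => ?_
  rw [← Nat.support_factorization, Finsupp.notMem_support_iff] at hp
  simp [hp]

theorem one_le_gw (e : ℕ → ℕ) (m : ℕ) : 1 ≤ gw e m :=
  one_le_prod' fun _ _ => Nat.one_le_pow _ _ (Nat.succ_pos _)

theorem gw_mul_le (e : ℕ → ℕ) {a b : ℕ} (ha : a ≠ 0) (hb : b ≠ 0) :
    gw e (a * b) ≤ gw e a * gw e b := by
  rw [gw_eq e (m := a) (a * b).primeFactors (Nat.primeFactors_mono (dvd_mul_right _ _) (by simp [ha, hb])),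
    gw_eq e (m := b) (a * b).primeFactors (Nat.primeFactors_mono (dvd_mul_left _ _) (by simp [ha, hb])),
    ← prod_mul_distrib, gw]
  refine prod_le_prod' fun p _ => ?_
  rw [← mul_pow, Nat.factorization_mul ha hb, Finsupp.add_apply]
  exact Nat.pow_le_pow_left (by nlinarith [Nat.zero_le (a.factorization p * b.factorization p)]) _

theorem gw_mul (e : ℕ → ℕ) {a b : ℕ} (h : a.Coprime b) : gw e (a * b) = gw e a * gw e b := by
  rcases eq_or_ne a 0 with rfl | ha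
  · rw [Nat.coprime_zero_left] at h
    simp [h, gw]
  rcases eq_or_ne b 0 with rfl | hb
  · rw [Nat.coprime_zero_right] at h
    simp [h, gw]
  rw [gw_eq e (m := a) (a * b).primeFactors (Nat.primeFactors_mono (dvd_mul_right _ _) (by simp [ha, hb])),
    gw_eq e (m := b) (a * b).primeFactors (Nat.primeFactors_mono (dvd_mul_left _ _) (by simp [ha, hb])),
    ← prod_mul_distrib, gw]
  refine prod_congr rfl fun p hp => ?_
  rw [← mul_pow, Nat.factorization_mul ha hb, Finsupp.add_apply]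
  have hp' := Nat.prime_of_mem_primeFactors hp
  by_cases h1 : p ∣ a
  · have : ¬ p ∣ b := fun h2 => hp'.one_lt.ne' (Nat.eq_one_of_dvd_coprimes h h1 h2)
    simp [Nat.factorization_eq_zero_of_not_dvd this]
  · simp [Nat.factorization_eq_zero_of_not_dvd h1]

theorem gw_pow (e : ℕ → ℕ) {p : ℕ} (hp : p.Prime) (k : ℕ) : gw e (p ^ k) = (k + 1) ^ e p := by
  rw [gw_eq e {p} (by
    intro q hq
    have := Nat.mem_primeFactors.1 hq
    exact mem_singleton.2 ((Nat.prime_dvd_prime_iff_eq this.1 hp).1 (this.1.dvd_of_dvd_pow this.2.1)))]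
  simp [hp.factorization_pow]

/-- a divisor of moderate size that carries a fixed power of the weight -/
theorem block (e : ℕ → ℕ) {b V : ℕ} (hb : ∀ p, e p ≤ b) (hV : 1 ≤ V) (t : ℕ) :
    ∀ m, m ≠ 0 → m ≤ V ^ t → ∃ D, D ∣ m ∧ D ≤ V ^ 2 ∧ gw e m ≤ (2 ^ b * gw e D) ^ (t + 1) := by
  have hb1 : 1 ≤ 2 ^ b := Nat.one_le_two_pow
  have small : ∀ m t, m ≤ V ^ 2 → ∃ D, D ∣ m ∧ D ≤ V ^ 2 ∧ gw e m ≤ (2 ^ b * gw e D) ^ (t + 1) :=
    fun m t h => ⟨m, dvd_rfl, h, (Nat.le_mul_of_pos_left _ hb1).trans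
      (Nat.le_self_pow (Nat.succ_ne_zero t) _)⟩
  induction t with
  | zero => exact fun m _ h => small m 0 (h.trans (Nat.pow_le_pow_right hV (by norm_num)))
  | succ t ih =>
    intro m hm h
    by_cases h2 : m ≤ V ^ 2
    · exact small m _ h2
    have hex : ∃ a, a ∣ m ∧ V < a := ⟨m, dvd_rfl, by nlinarith⟩
    classical
    obtain ⟨⟨c, hc⟩, h3⟩ := Nat.find_spec hex
    have hmin := fun a => Nat.find_min hex (m := a)
    set a := Nat.find hex
    have ha : a ≠ 0 := by omega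
    have hc0 : c ≠ 0 := by rintro rfl; simp at hc; omega
    have hcV : c ≤ V ^ t := by
      by_contra h4
      have : V ^ (t + 1) < a * c := by
        rw [pow_succ']
        exact Nat.mul_lt_mul'' h3 (not_le.1 h4)
      omega
    obtain ⟨D, d1, d2, d3⟩ := ih c hc0 hcV
    have h5 := gw_mul_le e ha hc0
    rw [← hc] at h5
    have hD := one_le_gw e D
    by_cases hp : a.Prime
    · refine ⟨D, hc ▸ d1.mul_left a, d2, h5.trans ?_⟩
      have h6 : gw e a ≤ 2 ^ b * gw e D := by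
        have := gw_pow e hp 1
        rw [pow_one] at this
        rw [this]
        exact (Nat.pow_le_pow_right (by norm_num) (hb a)).trans (Nat.le_mul_of_pos_right _ hD)
      rw [pow_succ']
      exact Nat.mul_le_mul h6 d3
    · have h6 : a ≤ V ^ 2 := by
        obtain ⟨x, y, hx, hy, hxy⟩ := (Nat.not_prime_iff_exists_mul_eq (by omega : 2 ≤ a)).1 hp
        have h7 : x ≤ V := by
          by_contra h8
          exact hmin x hx ⟨(Dvd.intro _ hxy).trans ⟨c, hc⟩, not_le.1 h8⟩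
        have h8 : y ≤ V := by
          by_contra h8
          exact hmin y hy ⟨(Dvd.intro_left _ hxy).trans ⟨c, hc⟩, not_le.1 h8⟩
        rw [← hxy, sq]
        exact Nat.mul_le_mul h7 h8
      rcases le_total (gw e a) (gw e D) with h7 | h7
      · refine ⟨D, hc ▸ d1.mul_left a, d2, h5.trans ?_⟩
        rw [pow_succ']
        exact Nat.mul_le_mul (h7.trans (Nat.le_mul_of_pos_left _ hb1)) d3
      · refine ⟨a, ⟨c, hc⟩, h6, h5.trans ?_⟩
        rw [pow_succ']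
        exact Nat.mul_le_mul (Nat.le_mul_of_pos_left _ hb1)
          (d3.trans (Nat.pow_le_pow_left (Nat.mul_le_mul_left _ h7) _))

theorem local_sum (j : ℕ) : ∃ c : ℝ, 0 ≤ c ∧ ∀ n p : ℕ, p.Prime →
    Summable (fun k : ℕ => ((k + 1 : ℝ)) ^ j * (rho n (p ^ k) / (p ^ k : ℕ))) ∧
      ∑' k : ℕ, ((k + 1 : ℝ)) ^ j * (rho n (p ^ k) / (p ^ k : ℕ)) ≤ Real.exp (c / p) := by
  have hs : Summable fun k : ℕ => ((k + 2 : ℕ) : ℝ) ^ j * (4 / 5 : ℝ) ^ (k + 2) :=
    (summable_nat_add_iff (f := fun k : ℕ => (k : ℝ) ^ j * (4 / 5 : ℝ) ^ k) 2).2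
      (summable_pow_mul_geometric_of_norm_lt_one j (by norm_num [abs_of_pos]))
  refine ⟨10 * ∑' k : ℕ, ((k + 2 : ℕ) : ℝ) ^ j * (4 / 5 : ℝ) ^ (k + 2),
    mul_nonneg (by norm_num) (tsum_nonneg fun _ => by positivity), fun n p hp => ?_⟩
  have hp2 : (2 : ℝ) ≤ p := by exact_mod_cast hp.two_le
  have key : ∀ k : ℕ, (((k + 1 : ℕ) + 1 : ℝ)) ^ j * (rho n (p ^ (k + 1)) / (p ^ (k + 1) : ℕ)) ≤
      10 / p * (((k + 2 : ℕ) : ℝ) ^ j * (4 / 5 : ℝ) ^ (k + 2)) := by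
    intro k
    have h1 : (rho n (p ^ (k + 1)) : ℝ) ≤ 3 * p ^ (2 * (k + 1) / 3) := by
      exact_mod_cast rho_le p hp (k + 1) n
    have h2 : (p : ℝ) ^ (k + 1) = p ^ (2 * (k + 1) / 3) * (p * p ^ (k / 3)) := by
      rw [← pow_succ', ← pow_add]
      congr 1
      omega
    have h3 : (5 / 4 : ℝ) ^ (k + 2) ≤ 10 / 3 * p ^ (k / 3) := by
      have a1 : (5 / 4 : ℝ) ^ (k + 2) ≤ (5 / 4) ^ (3 * (k / 3) + 4) :=
        pow_le_pow_right₀ (by norm_num) (by omega)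
      have a2 : ((5 / 4 : ℝ) ^ 3) ^ (k / 3) ≤ p ^ (k / 3) :=
        pow_le_pow_left₀ (by norm_num) (by norm_num; linarith) _
      rw [pow_add _ (3 * (k / 3)), pow_mul] at a1
      have a3 : (0 : ℝ) ≤ p ^ (k / 3) := by positivity
      nlinarith
    have h4 : (rho n (p ^ (k + 1)) : ℝ) / (p ^ (k + 1) : ℕ) ≤ 10 / p * (4 / 5 : ℝ) ^ (k + 2) := by
      push_cast
      rw [div_le_iff₀ (by positivity), h2]
      refine h1.trans ?_
      have a1 : (4 / 5 : ℝ) ^ (k + 2) * (5 / 4) ^ (k + 2) = 1 := by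
        rw [← mul_pow]; norm_num
      have a2 : (3 : ℝ) ≤ 10 * (4 / 5) ^ (k + 2) * p ^ (k / 3) := by
        have a3 : (0 : ℝ) ≤ (4 / 5) ^ (k + 2) := by positivity
        nlinarith [mul_le_mul_of_nonneg_left h3 a3]
      calc 3 * (p : ℝ) ^ (2 * (k + 1) / 3)
          ≤ (10 * (4 / 5) ^ (k + 2) * p ^ (k / 3)) * p ^ (2 * (k + 1) / 3) := by gcongr
        _ = _ := by field_simp
    have h5 : (((k + 1 : ℕ) + 1 : ℝ)) = ((k + 2 : ℕ) : ℝ) := by push_cast; ring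
    rw [h5]
    calc _ ≤ ((k + 2 : ℕ) : ℝ) ^ j * (10 / p * (4 / 5 : ℝ) ^ (k + 2)) := by gcongr
      _ = _ := by ring
  have hs1 : Summable fun k : ℕ =>
      (((k + 1 : ℕ) + 1 : ℝ)) ^ j * (rho n (p ^ (k + 1)) / (p ^ (k + 1) : ℕ)) :=
    Summable.of_nonneg_of_le (fun _ => by positivity) key (hs.mul_left _)
  have hs2 : Summable (fun k : ℕ => ((k + 1 : ℝ)) ^ j * (rho n (p ^ k) / (p ^ k : ℕ))) :=
    (summable_nat_add_iff 1).1 hs1
  refine ⟨hs2, ?_⟩
  rw [hs2.tsum_eq_zero_add]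
  have h1 := hs1.tsum_le_tsum key (hs.mul_left _)
  rw [tsum_mul_left] at h1
  refine le_trans ?_ (Real.add_one_le_exp _)
  simp only [Nat.cast_zero, zero_add, one_pow, pow_zero, rho_one, Nat.cast_one, div_one, mul_one]
  rw [mul_div_right_comm]
  linarith

/-- mean value of divisor weights of `n - u^3` -/
theorem mean_value : ∃ c : ℕ → ℝ, (∀ j, 0 ≤ c j) ∧ ∀ (e : ℕ → ℕ) (b n U : ℕ), (∀ p, e p ≤ b) →
    4 ≤ U → n ≤ U ^ 3 → ∑ u ∈ Ioc 0 U with u ^ 3 ≠ n, (gw e (mm n u) : ℝ) ≤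
      2 * 2 ^ (13 * b) * U * Real.exp (∑ p ∈ Ioc 0 U with p.Prime, c (e p) / p) := by
  choose c hc0 hc using local_sum
  refine ⟨fun j => c (13 * j), fun j => hc0 _, fun e b n U hb hU hn => ?_⟩
  have hV : 2 ≤ U.sqrt := Nat.le_sqrt.2 hU
  have hV2 : U ^ 3 ≤ U.sqrt ^ 12 := by
    have h1 := Nat.lt_succ_sqrt' U
    have h2 : (U.sqrt + 1) ^ 2 ≤ U.sqrt ^ 4 := by
      rw [show 4 = 2 * 2 from rfl, pow_mul]
      exact Nat.pow_le_pow_left (by nlinarith) 2
    rw [show 12 = 4 * 3 from rfl, pow_mul]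
    exact Nat.pow_le_pow_left (h1.le.trans h2) 3
  have h1 : ∀ u ∈ (Ioc 0 U).filter fun u => u ^ 3 ≠ n, (gw e (mm n u) : ℝ) ≤
      2 ^ (13 * b) * ∑ D ∈ Ioc 0 U, if u ^ 3 ≡ n [MOD D] then (gw e D : ℝ) ^ 13 else 0 := by
    intro u hu
    obtain ⟨h2, h3⟩ := mem_filter.1 hu
    obtain ⟨D, d1, d2, d3⟩ := block e hb (by omega : 1 ≤ U.sqrt) 12 (mm n u) (mm_ne h3)
      ((mm_le hn (mem_Ioc.1 h2).2).trans hV2)
    have d4 : (gw e (mm n u) : ℝ) ≤ 2 ^ (13 * b) * (gw e D : ℝ) ^ 13 := by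
      rw [mul_comm 13 b, pow_mul, ← mul_pow]
      exact_mod_cast d3
    refine d4.trans (mul_le_mul_of_nonneg_left ?_ (by positivity))
    have := single_le_sum (f := fun D => if u ^ 3 ≡ n [MOD D] then (gw e D : ℝ) ^ 13 else 0)
      (s := Ioc 0 U) (fun _ _ => by positivity) (a := D)
      (mem_Ioc.2 ⟨Nat.pos_of_dvd_of_pos d1 (Nat.pos_of_ne_zero (mm_ne h3)),
        d2.trans (Nat.sqrt_le' U)⟩)
    simpa only [dvd_mm.1 d1, if_true] using this
  have h2 : ∑ u ∈ Ioc 0 U, ∑ D ∈ Ioc 0 U, (if u ^ 3 ≡ n [MOD D] then (gw e D : ℝ) ^ 13 else 0) ≤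
      2 * U * ∑ D ∈ Ioc 0 U, (gw e D : ℝ) ^ 13 * (rho n D / D) := by
    rw [sum_comm, mul_sum]
    refine sum_le_sum fun D hD => ?_
    rw [← sum_filter, sum_const, nsmul_eq_mul]
    have := count_le n U (mem_Ioc.1 hD).1.ne' (mem_Ioc.1 hD).2
    calc _ ≤ 2 * U * (rho n D / D) * (gw e D : ℝ) ^ 13 := by gcongr
      _ = _ := by ring
  set S := (Ioc 0 U).filter Nat.Prime with hS
  have h0 : ∀ D : ℕ, 0 ≤ (gw e D : ℝ) ^ 13 * (rho n D / D) := fun D => by positivity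
  have hloc : ∀ p : ℕ, p.Prime → ∀ k : ℕ, (gw e (p ^ k) : ℝ) ^ 13 * (rho n (p ^ k) / (p ^ k : ℕ)) =
      ((k + 1 : ℝ)) ^ (13 * e p) * (rho n (p ^ k) / (p ^ k : ℕ)) := fun p hp k => by
    rw [gw_pow e hp, mul_comm 13, pow_mul]
    push_cast
    rfl
  have h3 := (EulerProduct.summable_and_hasSum_factoredNumbers_prod_filter_prime_tsum
    (f := fun D : ℕ => (gw e D : ℝ) ^ 13 * (rho n D / D)) (by simp [gw, rho_one])
    (fun {a b} h => by rw [gw_mul e h, rho_mul n h]; push_cast; ring)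
    (fun {p} hp => by
      simp only [hloc p hp]
      exact (hc _ n p hp).1.norm) S).2
  classical
  have h4 := sum_le_hasSum ((Ioc 0 U).subtype (· ∈ Nat.factoredNumbers S)) (fun _ _ => h0 _) h3
  rw [sum_subtype_eq_sum_filter (f := fun D : ℕ => (gw e D : ℝ) ^ 13 * (rho n D / D)),
    filter_true_of_mem (fun D hD => Nat.mem_factoredNumbers'.2 fun p hp hd => mem_filter.2
      ⟨mem_Ioc.2 ⟨hp.pos, (Nat.le_of_dvd (mem_Ioc.1 hD).1 hd).trans (mem_Ioc.1 hD).2⟩, hp⟩),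
    filter_true_of_mem (fun p hp => (mem_filter.1 hp).2)] at h4
  have h5 : ∏ p ∈ S, ∑' k : ℕ, (gw e (p ^ k) : ℝ) ^ 13 * (rho n (p ^ k) / (p ^ k : ℕ)) ≤
      Real.exp (∑ p ∈ S, c (13 * e p) / p) := by
    rw [Real.exp_sum]
    refine prod_le_prod (fun p _ => tsum_nonneg fun k => h0 _) fun p hp => ?_
    simp only [hloc p (mem_filter.1 hp).2]
    exact (hc _ n p (mem_filter.1 hp).2).2
  calc _ ≤ _ := sum_le_sum h1
    _ ≤ ∑ u ∈ Ioc 0 U, 2 ^ (13 * b) * ∑ D ∈ Ioc 0 U,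
        (if u ^ 3 ≡ n [MOD D] then (gw e D : ℝ) ^ 13 else 0) :=
        sum_le_sum_of_subset_of_nonneg (filter_subset _ _) fun _ _ _ =>
          mul_nonneg (by positivity) (sum_nonneg fun _ _ => by positivity)
    _ ≤ 2 ^ (13 * b) * (2 * U * Real.exp (∑ p ∈ S, c (13 * e p) / p)) := by
        rw [← mul_sum]
        gcongr
        refine h2.trans ?_
        gcongr
        exact h4.trans h5
    _ = _ := by ring

end Pool.Agent.Lib.MP_9c5702_nt.Save
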