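import Pool.Agent.Lib.MP_9c5702_nt.Save.Reduce

/-! Assembly of the bound `U / (log U)^(1/15)`. -/

set_option autoImplicit false

namespace Pool.Agent.Lib.MP_9c5702_nt.Save

open Finset Real MP_488d93_nt Filter

open Classical in
theorem sum_DD_le {κ n U R k K Y0 Y1 : ℕ} {L P : Finset ℕ} {T M : ℝ} (hn : n ≠ 0) (hR : 2 ≤ R)
    (hL : ∀ l ∈ L, l.Prime ∧ 75 ≤ l) (hLc : L.card = 42 * R) (hq : ∏ l ∈ L, l ≤ Y0)
    (hq2 : (∏ l ∈ L, l) ^ 2 * (2 ^ R) ^ 5 ≤ (2 ^ R) ^ (3 * k)) (hY0 : (2 ^ R) ^ 4 ≤ Y0)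
    (hP : P = (Ioc Y0 Y1).filter Nat.Prime) (h1 : 1 ≤ Y1) (hU : Y1 ^ R ≤ U)
    (hT : 1 ≤ T) (hTX : T ≤ 2 ^ R) (hk : (R + 1 : ℝ) ^ k ≤ T) (hlog : 1 + log Y1 ≤ 2 ^ R)
    (hexp : exp (∑ p ∈ P, 3 / (p : ℝ)) ≤ 2 ^ R) (hn2 : 3 + Nat.log 2 n ≤ 2 ^ R)
    (hM : ∑ u ∈ Ioc 0 U with u ^ 3 ≠ n,
      (gw (fun p => if p ∈ P then 2 else K + 1) (mm n u) : ℝ) ≤ M) :
    (((Ioc 0 U).filter fun u => ∃ p ∈ P, u ^ 3 ≡ n [MOD p ^ 2]).card : ℝ) ≤ 2 * U / (2 ^ R) ^ 3 ∧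
    ∀ A ⊆ (Ioc 0 U).filter fun u => u ^ 3 ≠ n, ∑ u ∈ A, ((DD κ n u).card : ℝ) ≤
      A.card * T ^ 2 + M * (1 / T ^ K + 1 / 2 ^ R) + 8 * U / 2 ^ R := by
  have hX4 : (4 : ℝ) ≤ 2 ^ R := by
    have : (2 : ℝ) ^ 2 ≤ 2 ^ R := pow_le_pow_right₀ one_le_two hR
    linarith
  have hY : ((2 : ℝ) ^ R) ^ 4 ≤ Y0 := by exact_mod_cast hY0
  have e4 : (((Ioc 0 U).filter fun u => ∃ p ∈ P, u ^ 3 ≡ n [MOD p ^ 2]).card : ℝ) ≤
      2 * U / (2 ^ R) ^ 3 := by
    have a1 := count_sq_le (U := U) (Y0 := Y0) (Y1 := Y1) hn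
      (le_trans (Nat.one_le_pow _ _ (Nat.two_pow_pos R)) hY0)
      ((Nat.pow_le_pow_right h1 hR).trans hU)
    have a2 : (3 + Nat.log 2 n : ℝ) ≤ 2 ^ R := by exact_mod_cast hn2
    simp only [hP, mem_filter, and_assoc]
    refine a1.trans ?_
    calc _ ≤ 2 * U * (2 ^ R / (2 ^ R) ^ 4 : ℝ) := by gcongr
      _ = _ := by field_simp
  refine ⟨e4, fun A hA => ?_⟩
  have e3 := count_bad (κ := κ) (n := n) (k := k) (w := 21 * R) hL hq hP h1 hU
  have hq3 : ((∏ l ∈ L, l : ℕ) : ℝ) ^ 2 * (2 ^ R) ^ 5 ≤ ((2 ^ R) ^ 3) ^ k := by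
    rw [pow_mul] at hq2
    exact_mod_cast hq2
  have h45 : (4 / 5 : ℝ) ^ (21 * R) * (2 ^ R) ^ 6 ≤ 1 := by
    rw [← pow_mul, mul_comm R 6, pow_mul, pow_mul, ← mul_pow]
    exact pow_le_one₀ (by norm_num) (by norm_num)
  have hl0 : 0 ≤ log Y1 := log_natCast_nonneg _
  set X : ℝ := 2 ^ R with hX
  have X0 : 0 < X := by linarith
  have h2 : X * (3 * ((4 / 5) ^ (21 * R) * (1 + log Y1))) ≤ 1 / X ^ 3 := by
    rw [le_div_iff₀ (by positivity)]
    have a1 : (0 : ℝ) ≤ (4 / 5) ^ (21 * R) * X ^ 5 := by positivity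
    calc _ ≤ X * (3 * ((4 / 5) ^ (21 * R) * X)) * X ^ 3 := by gcongr
      _ = (4 / 5) ^ (21 * R) * X ^ 5 * 3 := by ring
      _ ≤ (4 / 5) ^ (21 * R) * X ^ 5 * X := by gcongr; linarith
      _ = (4 / 5) ^ (21 * R) * X ^ 6 := by ring
      _ ≤ 1 := h45
  replace e3 := e3.trans (show _ ≤ 6 * U / X ^ 4 by
    calc _ ≤ ((∏ l ∈ L, l : ℕ) : ℝ) ^ 2 * (2 * U * (X * (3 * (1 / X ^ 3) ^ k))) := by gcongr
      _ = 6 * U / X ^ 4 * (((∏ l ∈ L, l : ℕ) : ℝ) ^ 2 * X ^ 5 / (X ^ 3) ^ k) := by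
          rw [one_div_pow]
          field_simp
          ring
      _ ≤ _ := mul_le_of_le_one_right (by positivity) ((div_le_one (by positivity)).2 hq3))
  have hPp : ∀ p ∈ P, p.Prime := fun p hp => (mem_filter.1 (hP ▸ hp)).2
  have h3 := sum_le_sum (s := A) fun u hu => card_DD_le (κ := κ) (R := R) (k := k) (w := 21 * R)
    (K := K) (L := L) (P := P) (mem_filter.1 (hA hu)).2 (fun l hl => ⟨(hL l hl).1, fun e => by
      have a1 := (mem_Ioc.1 (mem_filter.1 (hP ▸ e)).1).1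
      have a2 := Nat.le_of_dvd (prod_pos fun l hl => (hL l hl).1.pos) (dvd_prod_of_mem id hl)
      simp only [id] at a2
      omega⟩) hPp hT (hTX.trans (pow_le_pow_right₀ one_le_two (by omega))) (by omega)
  have hA' : A ⊆ Ioc 0 U := hA.trans (filter_subset _ _)
  rw [sum_add_distrib, sum_add_distrib, sum_const, nsmul_eq_mul, ← sum_mul, ← mul_sum,
    sum_add_distrib, sum_boole, sum_boole, ← hX] at h3
  refine h3.trans (add_le_add (add_le_add ?_ ?_) ?_)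
  · rw [sq]
    gcongr
  · exact mul_le_mul_of_nonneg_right ((sum_le_sum_of_subset_of_nonneg hA
      fun _ _ _ => Nat.cast_nonneg _).trans hM) (by positivity)
  · have a1 := (Nat.cast_le.2 (card_le_card (filter_subset_filter _ hA'))).trans e3
    have a2 := (Nat.cast_le.2 (card_le_card (filter_subset_filter _ hA'))).trans e4
    calc _ ≤ X * X * (6 * U / X ^ 4 + 2 * U / X ^ 3) :=
          mul_le_mul (by gcongr) (add_le_add a1 a2) (by positivity) (by positivity)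
      _ = 6 * U / X / X + 2 * U / X := by field_simp
      _ ≤ 6 * U / X + 2 * U / X := by
          gcongr
          exact div_le_self (by positivity) (by linarith)
      _ = _ := by ring

theorem main_par {n U R k K Y0 Y1 : ℕ} {L P : Finset ℕ} {T M l : ℝ} (hn : n ≠ 0) (hR : 2 ≤ R)
    (hs : ∀ x y z, x ^ 3 + y ^ 3 + z ^ 3 = n → x + y + z ≤ U)
    (hL : ∀ l ∈ L, l.Prime ∧ 75 ≤ l) (hLc : L.card = 42 * R) (hq : ∏ l ∈ L, l ≤ Y0)
    (hq2 : (∏ l ∈ L, l) ^ 2 * (2 ^ R) ^ 5 ≤ (2 ^ R) ^ (3 * k)) (hY0 : (2 ^ R) ^ 4 ≤ Y0)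
    (hP : P = (Ioc Y0 Y1).filter Nat.Prime) (h1 : 1 ≤ Y1) (hU : Y1 ^ (2 * R) * (2 ^ R) ^ 4 ≤ U)
    (hT : 1 ≤ T) (hTX : T ≤ 2 ^ R) (hk : (R + 1 : ℝ) ^ k ≤ T) (hlog : 1 + log Y1 ≤ 2 ^ R)
    (hexp : exp (∑ p ∈ P, 3 / (p : ℝ)) ≤ 2 ^ R) (hn2 : 3 + Nat.log 2 n ≤ 2 ^ R)
    (hM : ∑ u ∈ Ioc 0 U with u ^ 3 ≠ n,
      (gw (fun p => if p ∈ P then 2 else K + 1) (mm n u) : ℝ) ≤ M)
    (hl : l = ∑ p ∈ P with p % 3 = 2, 1 / (p : ℝ)) (hlR : 3 * l ≤ R) (hE : Even R) :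
    (r33 n : ℝ) ≤ 14 * U * (T ^ 2 * exp (-(67 / 500 * l))) + 8 * (M * (1 / T ^ K + 1 / 2 ^ R)) +
      100 * U / 2 ^ R := by
  classical
  have hU' : Y1 ^ R ≤ U := (Nat.pow_le_pow_right h1 (by omega)).trans
    ((Nat.le_mul_of_pos_right _ (by positivity)).trans hU)
  obtain ⟨e4, s0⟩ := sum_DD_le (κ := 0) hn hR hL hLc hq hq2 hY0 hP h1 hU' hT hTX hk hlog hexp hn2 hM
  obtain ⟨-, s1⟩ := sum_DD_le (κ := 1) hn hR hL hLc hq hq2 hY0 hP h1 hU' hT hTX hk hlog hexp hn2 hM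
  set Q := P.filter fun p => p % 3 = 2 with hQ
  have hQp : ∀ p ∈ Q, p.Prime ∧ p % 3 = 2 ∧ p ≤ Y1 := fun p hp => by
    have := mem_filter.1 (hP ▸ (mem_filter.1 hp).1)
    exact ⟨this.2, (mem_filter.1 hp).2, (mem_Ioc.1 this.1).2⟩
  have t0 := low_tail h1 hQp hl hE hlR n U
  have t1 := high_tail h1 hQp hl hlR n U
  set V := (Ioc 0 U).filter fun u => u ^ 3 ≠ n with hV
  set A0 := V.filter fun u => ((PP Q n u).card : ℝ) ≤ 11 / 21 * l with hA0
  set A1 := V.filter fun u => 11 / 7 * l ≤ ((PP Q n u).card : ℝ) ∨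
    ∃ p ∈ P, u ^ 3 ≡ n [MOD p ^ 2] with hA1
  have h2 := reduce n A0 A1 (fun u hu => (mem_filter.1 (mem_filter.1 hu).1).2)
    (fun u hu => (mem_filter.1 (mem_filter.1 hu).1).2) fun x y z hx hy hz h => by
      have a0 := hs x y z h
      have a1 := pow_pos hx 3
      have a2 := pow_pos hy 3
      have a3 := pow_pos hz 3
      have a4 : (x + y + z) ^ 3 ≠ n := by
        have : 0 < (x + y) * (y + z) * (z + x) := by positivity
        rw [show (x + y + z) ^ 3 = n + 3 * ((x + y) * (y + z) * (z + x)) by rw [← h]; ring]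
        omega
      simp only [hA0, hA1, hV, mem_filter, mem_Ioc]
      by_contra! hc
      obtain ⟨c1, c2, c3, c4⟩ := hc
      have b1 := c1 ⟨⟨hx, by omega⟩, by omega⟩
      have b2 := c2 ⟨⟨hy, by omega⟩, by omega⟩
      have b3 := c3 ⟨⟨hz, by omega⟩, by omega⟩
      obtain ⟨b4, b5⟩ := c4 ⟨⟨by omega, a0⟩, a4⟩
      have b6 := typical (P := Q) (fun p hp => ⟨(hQp p hp).1, (hQp p hp).2.1⟩) h
        fun p hp => b5 p (mem_filter.1 hp).1
      have b7 : ((PP Q n x).card : ℝ) + (PP Q n y).card + (PP Q n z).card ≤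
        (PP Q n (x + y + z)).card := by exact_mod_cast b6
      linarith
  have h3 : (r33 n : ℝ) ≤ 6 * ∑ u ∈ A0, ((DD 0 n u).card : ℝ) + 2 * ∑ u ∈ A1, ((DD 1 n u).card : ℝ) := by
    exact_mod_cast h2
  have c0 : (A0.card : ℝ) ≤ _ :=
    (Nat.cast_le.2 (card_le_card (filter_subset_filter _ (filter_subset _ _)))).trans t0
  have c1 : (A1.card : ℝ) ≤ _ := le_trans (by
    rw [hA1, filter_or]
    exact_mod_cast (card_union_le _ _).trans (Nat.add_le_add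
      (card_le_card (filter_subset_filter _ (filter_subset _ _)))
      (card_le_card (filter_subset_filter _ (filter_subset _ _))))) (add_le_add t1 e4)
  have d0 := s0 A0 (filter_subset _ _)
  have d1 := s1 A1 (filter_subset _ _)
  have hU2 : (Y1 : ℝ) ^ (2 * R) * (2 ^ R) ^ 4 ≤ U := by exact_mod_cast hU
  have X1 : (1 : ℝ) ≤ 2 ^ R := one_le_pow₀ one_le_two
  set X : ℝ := 2 ^ R
  have f1 : (Y1 : ℝ) ^ (2 * R) * X * T ^ 2 ≤ U / X := by
    rw [le_div_iff₀ (by linarith)]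
    calc _ ≤ (Y1 : ℝ) ^ (2 * R) * X * X ^ 2 * X := by gcongr
      _ = (Y1 : ℝ) ^ (2 * R) * X ^ 4 := by ring
      _ ≤ _ := hU2
  have f2 : (Y1 : ℝ) ^ (2 * R) * T ^ 2 ≤ (Y1 : ℝ) ^ (2 * R) * X * T ^ 2 := by
    gcongr
    exact le_mul_of_one_le_right (by positivity) X1
  have f3 : 2 * U / X ^ 3 * T ^ 2 ≤ 2 * (U / X) := by
    calc _ ≤ 2 * U / X ^ 3 * X ^ 2 := by gcongr
      _ = _ := by field_simp
  have g0 := mul_le_mul_of_nonneg_right c0 (sq_nonneg T)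
  have g1 := mul_le_mul_of_nonneg_right c1 (sq_nonneg T)
  have e1 : 8 * U / X = 8 * (U / X) := by ring
  have e2 : 100 * U / X = 100 * (U / X) := by ring
  linarith

theorem supply {R : ℕ} (hR : 200 ≤ R) :
    ∃ L : Finset ℕ, (∀ l ∈ L, l.Prime ∧ 75 ≤ l ∧ l ≤ R ^ 3) ∧ L.card = 42 * R := by
  have h0 : (200 : ℝ) ≤ R := by exact_mod_cast hR
  have h1 := Chebyshev.pi_ge (R ^ 3)
  have h2 : log R ≤ R := (log_le_sub_one_of_pos (by linarith)).trans (by linarith)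
  have h3 : 0 < log R := log_pos (by linarith)
  push_cast at h1
  have h4 : log ((R : ℝ) ^ 3 + 1) ≤ 4 * R := by
    have : log ((R : ℝ) ^ 3 + 1) ≤ log (R ^ 4) := log_le_log (by positivity) (by
      have : (1 : ℝ) ≤ R ^ 3 := one_le_pow₀ (by linarith)
      nlinarith)
    rw [log_pow] at this
    push_cast at this
    linarith
  rw [log_pow, div_le_iff₀ (by positivity)] at h1
  push_cast at h1
  have h5 : (42 * R + 75 : ℝ) ≤ Nat.primeCounting (R ^ 3) := by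
    by_contra! h
    have a1 : (Nat.primeCounting (R ^ 3) : ℝ) * (3 * log R) ≤ (42 * R + 75) * (3 * R) := by gcongr
    have a2 : (0 : ℝ) ≤ R ^ 2 := by positivity
    have a3 : (R : ℝ) ^ 3 * 0.69 ≤ R ^ 3 * log 2 := by gcongr; linarith [log_two_gt_d9]
    nlinarith
  have h6 : 42 * R + 75 ≤ (Nat.primesLE (R ^ 3)).card := by
    rw [Nat.primesLE_card_eq_primeCounting]
    exact_mod_cast h5
  obtain ⟨L, l1, l2⟩ := exists_subset_card_eq (s := Nat.primesLE (R ^ 3) \ range 75) (n := 42 * R)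
    (by have := le_card_sdiff (range 75) (Nat.primesLE (R ^ 3)); rw [card_range] at this; omega)
  refine ⟨L, fun l hl => ?_, l2⟩
  obtain ⟨a1, a2⟩ := mem_sdiff.1 (l1 hl)
  exact ⟨(Nat.mem_primesLE.1 a1).2, not_lt.1 fun h => a2 (mem_range.2 h), (Nat.mem_primesLE.1 a1).1⟩

theorem ev_log (a D : ℝ) (ha : 0 < a) (hD : 0 < D) :
    ∀ᶠ L : ℝ in atTop, D * (log (a * L) + 1) ^ 2 ≤ L ∧ 8 * (a * L) ≤ exp L := by
  have h1 := (isLittleO_pow_log_id_atTop (n := 2)).bound (c := 1 / (4 * D)) (by positivity)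
  have h2 := (isLittleO_pow_exp_atTop (n := 1)).bound (c := 1 / (8 * a)) (by positivity)
  filter_upwards [h1, h2, tendsto_log_atTop.eventually_ge_atTop (|log a| + 1),
    eventually_gt_atTop 0] with L a1 a2 a3 a4
  simp only [norm_pow, norm_eq_abs, sq_abs, id, abs_of_pos a4, pow_one,
    abs_of_pos (exp_pos L)] at a1 a2
  rw [one_div_mul_eq_div, le_div_iff₀ (by positivity)] at a1 a2
  refine ⟨?_, by linarith⟩
  rw [log_mul ha.ne' a4.ne']
  have a5 : (log a + log L + 1) ^ 2 ≤ (2 * log L) ^ 2 :=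
    sq_le_sq' (by linarith [neg_abs_le (log a), abs_nonneg (log a)]) (by linarith [le_abs_self (log a)])
  nlinarith

/-- prime sums over the three ranges -/
theorem prime_sums {C L r : ℝ} {U Y0 Y1 : ℕ} {P : Finset ℕ} (hC : ∀ N : ℕ, 2 ≤ N →
      4995 / 10000 * log (log N) - C ≤ ∑ p ∈ Ioc 0 N with p.Prime ∧ p % 3 = 2, 1 / (p : ℝ))
    (hP : P = (Ioc Y0 Y1).filter Nat.Prime) (h0 : 2 ≤ Y0) (h1 : 2 ≤ Y1) (hU : Y1 ≤ U)
    (hL : L = log (log U)) (hr : 0 ≤ r) (a0 : log (log Y0) ≤ 2 * r) (a1 : L - r - 3 ≤ log (log Y1)) :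
    ∑ p ∈ P, 1 / (p : ℝ) ≤ L + 5 ∧
      4995 / 10000 * L - 3 * r - C - 7 ≤ ∑ p ∈ P with p % 3 = 2, 1 / (p : ℝ) ∧
      ∀ (c : ℕ → ℝ) (a b : ℕ), 0 ≤ c a → 0 ≤ c b →
        ∑ p ∈ Ioc 0 U with p.Prime, c (if p ∈ P then a else b) / p ≤
          c a * (L + 5) + c b * (3 * r + 18) := by
  have b0 := sum_inv_le Y0 h0
  have b1 := mertens_all Y1 h1
  have b2 := sum_inv_le U (h1.trans hU)
  have b3 := hC Y1 h1
  have pos : ∀ (s : Finset ℕ), ∀ p ∈ s, (0 : ℝ) ≤ 1 / p := fun _ _ _ => by positivity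
  have un : ∀ s t u : Finset ℕ, s ⊆ t ∪ u →
      ∑ p ∈ s, 1 / (p : ℝ) ≤ ∑ p ∈ t, 1 / (p : ℝ) + ∑ p ∈ u, 1 / (p : ℝ) := fun s t u h => by
    have := sum_union_inter (s₁ := t) (s₂ := u) (f := fun p => 1 / (p : ℝ))
    linarith [sum_le_sum_of_subset_of_nonneg h fun p hp _ => pos _ p hp, sum_nonneg (pos (t ∩ u))]
  have c1 : ∑ p ∈ P, 1 / (p : ℝ) ≤ L + 5 := by
    refine le_trans (sum_le_sum_of_subset_of_nonneg (fun p hp => ?_) fun p hp _ => pos _ p hp)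
      (hL ▸ b2)
    simp only [hP, mem_filter, mem_Ioc] at hp ⊢
    exact ⟨by omega, hp.2⟩
  refine ⟨c1, ?_, fun c a b ha hb => ?_⟩
  · have := un ((Ioc 0 Y1).filter fun p => p.Prime ∧ p % 3 = 2) ((Ioc 0 Y0).filter Nat.Prime)
      (P.filter fun p => p % 3 = 2) fun p hp => by
        simp only [hP, mem_filter, mem_Ioc, mem_union] at hp ⊢
        by_cases h : p ≤ Y0
        · exact Or.inl ⟨⟨hp.1.1, h⟩, hp.2.1⟩
        · exact Or.inr ⟨⟨⟨not_le.1 h, hp.1.2⟩, hp.2.1⟩, hp.2.2⟩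
    linarith
  · have d1 : ∑ p ∈ Ioc 0 Y1 with p.Prime, 1 / (p : ℝ) + ∑ p ∈ Ioc Y1 U with p.Prime, 1 / (p : ℝ) =
        ∑ p ∈ Ioc 0 U with p.Prime, 1 / (p : ℝ) := by
      simp only [sum_filter]
      exact sum_Ioc_consecutive _ (Nat.zero_le _) hU
    have d2 := un (((Ioc 0 U).filter Nat.Prime).filter (· ∉ P)) ((Ioc 0 Y0).filter Nat.Prime)
      ((Ioc Y1 U).filter Nat.Prime) fun p hp => by
        simp only [hP, mem_filter, mem_Ioc, mem_union] at hp ⊢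
        by_cases h : p ≤ Y0
        · exact Or.inl ⟨⟨hp.1.1.1, h⟩, hp.1.2⟩
        · exact Or.inr ⟨⟨not_le.1 fun e => hp.2 ⟨⟨not_le.1 h, e⟩, hp.1.2⟩, hp.1.1.2⟩, hp.1.2⟩
    have d3 : ∑ p ∈ ((Ioc 0 U).filter Nat.Prime).filter (· ∈ P), 1 / (p : ℝ) ≤ L + 5 :=
      (sum_le_sum_of_subset_of_nonneg (fun p hp => (mem_filter.1 hp).2)
        fun p hp _ => pos _ p hp).trans c1
    rw [← sum_filter_add_sum_filter_not _ (· ∈ P)]
    refine add_le_add ?_ ?_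
    · refine le_trans (le_of_eq ?_) (mul_le_mul_of_nonneg_left d3 ha)
      rw [mul_sum]
      exact sum_congr rfl fun p hp => by rw [if_pos (mem_filter.1 hp).2, mul_one_div]
    · refine le_trans (le_of_eq ?_) (mul_le_mul_of_nonneg_left (d2.trans (by linarith)) hb)
      rw [mul_sum]
      exact sum_congr rfl fun p hp => by rw [if_neg (mem_filter.1 hp).2, mul_one_div]

theorem main_U : ∃ C : ℝ, ∀ᶠ U : ℕ in atTop, ∀ n : ℕ, n ≠ 0 → n ≤ U ^ 3 →
    (∀ x y z, x ^ 3 + y ^ 3 + z ^ 3 = n → x + y + z ≤ U) →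
      (r33 n : ℝ) ≤ C * U * exp (-(1 / 15 * log (log U))) := by
  obtain ⟨c, c0, hc⟩ := mean_value
  obtain ⟨C, hC⟩ := mertens_two
  set K := ⌈20000 * (c 2 + 2)⌉₊ with hK
  have hK1 : 20000 * (c 2 + 2) ≤ K := Nat.le_ceil _
  have c2 := c0 2
  have c3 := c0 (K + 1)
  set D := 10 ^ 7 + 5 * c 2 + 18 * c (K + 1) + 1000 * |C| with hD
  have C0 := abs_nonneg C
  refine ⟨114 + 32 * 2 ^ (13 * (K + 2)), ?_⟩
  have hlim : Tendsto (fun U : ℕ => log (log U)) atTop atTop :=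
    tendsto_log_atTop.comp (tendsto_log_atTop.comp tendsto_natCast_atTop_atTop)
  filter_upwards [hlim.eventually (ev_log (2 * c 2 + 11) D (by linarith) (by positivity)),
    hlim.eventually_ge_atTop 30, eventually_ge_atTop 4] with U ⟨e1, e2⟩ e3 e4 n hn hnU hs
  have U1 : (4 : ℝ) ≤ U := by exact_mod_cast e4
  have hl : 0 < log U := log_pos (by linarith)
  set L := log (log U) with hL
  have hLe : exp L = log U := exp_log hl
  set R := 2 * ⌈(c 2 + 5) * L⌉₊ with hR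
  have R1 : 2 * ((c 2 + 5) * L) ≤ R := by
    rw [hR]
    push_cast
    linarith [Nat.le_ceil ((c 2 + 5) * L)]
  have R2 : (R : ℝ) ≤ (2 * c 2 + 11) * L := by
    rw [hR]
    push_cast
    linarith [Nat.ceil_lt_add_one (show 0 ≤ (c 2 + 5) * L by positivity)]
  have cL : 0 ≤ c 2 * L := by positivity
  have R3 : (300 : ℝ) ≤ R := by linarith
  have R4 : 300 ≤ R := by exact_mod_cast R3
  have l2 := log_two_gt_d9
  have l3 := log_two_lt_d9
  set r := log R with hr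
  have r0 : 0 ≤ r := log_natCast_nonneg R
  have r1 : D * (r + 1) ^ 2 ≤ L := by
    refine le_trans ?_ e1
    gcongr
    exact log_le_log (by linarith) R2
  have r2 : r + 1 ≤ (r + 1) ^ 2 := le_self_pow₀ (by linarith) two_ne_zero
  have r3 : D * (r + 1) ≤ L := le_trans (by gcongr) r1
  have hX : exp ((c 2 + 5) * L) ≤ 2 ^ R := by
    rw [← exp_log two_pos, ← exp_nat_mul]
    exact exp_le_exp.2 (by nlinarith)
  have hX' : ∀ t, t ≤ (c 2 + 5) * L → exp t ≤ 2 ^ R := fun t h => (exp_le_exp.2 h).trans hX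
  have h8 : 8 * (R : ℝ) ≤ log U := by linarith
  set j := Nat.log 2 R + 1 with hj
  have j1 : R < 2 ^ j := Nat.lt_pow_succ_log_self one_lt_two R
  have j2 : (j : ℝ) ≤ 2 * (r + 1) := by
    have a1 : (2 : ℝ) ^ Nat.log 2 R ≤ R := by exact_mod_cast Nat.pow_log_le_self 2 (by omega)
    have a2 := log_le_log (by positivity) a1
    rw [log_pow] at a2
    rw [hj]
    push_cast
    nlinarith [Nat.cast_nonneg (α := ℝ) (Nat.log 2 R)]
  have j3 : 126 * j ≤ R := by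
    have : (126 * j : ℝ) ≤ R := by nlinarith
    exact_mod_cast this
  obtain ⟨S, s1, s2⟩ := supply (R := R) (by omega)
  have s3 : ∏ l ∈ S, l ≤ (2 ^ R) ^ (126 * j) := by
    refine (prod_le_pow_card S (fun l => l) _ fun l h => (s1 l h).2.2).trans ?_
    calc (R ^ 3) ^ S.card ≤ ((2 ^ j) ^ 3) ^ S.card := by gcongr
      _ = _ := by rw [s2, ← pow_mul, ← pow_mul, ← pow_mul]; congr 1; ring
  have X1 : 1 ≤ 2 ^ R := Nat.one_le_two_pow
  set Y1 := ⌊exp (log U / (4 * R))⌋₊ with hY1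
  have y0 : 2 ≤ log U / (4 * R) := by rw [le_div_iff₀ (by linarith)]; linarith
  have y1 : (Y1 : ℝ) ≤ exp (log U / (4 * R)) := Nat.floor_le (exp_pos _).le
  have y2 : exp (log U / (4 * R)) ≤ Y1 + 1 := (Nat.lt_floor_add_one _).le
  have y3 : (2 : ℝ) ≤ Y1 := by linarith [add_one_le_exp (log U / (4 * R))]
  have y4 : 2 ≤ Y1 := by exact_mod_cast y3
  have y5 : Y1 ^ (2 * R) * (2 ^ R) ^ 4 ≤ U := by
    have a1 : (Y1 : ℝ) ^ (2 * R) ≤ exp (log U / 2) := by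
      refine (pow_le_pow_left₀ (by linarith) y1 _).trans (le_of_eq ?_)
      rw [← exp_nat_mul]
      congr 1
      push_cast
      field_simp
      ring
    have a2 : ((2 : ℝ) ^ R) ^ 4 ≤ exp (log U / 2) := by
      rw [← exp_log two_pos, ← exp_nat_mul, ← exp_nat_mul, exp_log two_pos]
      exact exp_le_exp.2 (by push_cast; nlinarith)
    have a3 := mul_le_mul a1 a2 (by positivity) (exp_pos _).le
    rw [← exp_add, add_halves, exp_log (by linarith)] at a3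
    exact_mod_cast a3
  have y6 : Y1 ≤ U := (Nat.le_self_pow (by omega) _).trans
    ((Nat.le_mul_of_pos_right _ (by positivity)).trans y5)
  have y7 : L - r - 3 ≤ log (log Y1) := by
    have a1 := log_le_log (exp_pos _) (y2.trans (show (Y1 : ℝ) + 1 ≤ 2 * Y1 by linarith))
    rw [log_exp, log_mul two_ne_zero (by linarith)] at a1
    have a2 : log U / (2 ^ 3 * R) ≤ log Y1 := by
      have : log U / (2 ^ 3 * R) = log U / (4 * R) / 2 := by field_simp; ring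
      linarith
    have a3 := log_le_log (by positivity) a2
    rw [log_div hl.ne' (by positivity), log_mul (by norm_num) (by positivity), log_pow] at a3
    push_cast at a3
    linarith
  have y8 : log (log (((2 ^ R) ^ R : ℕ) : ℝ)) ≤ 2 * r := by
    push_cast
    rw [log_pow, log_pow]
    refine (log_le_log (by positivity) (show _ ≤ (R : ℝ) ^ 2 by nlinarith)).trans (le_of_eq ?_)
    rw [log_pow]
    norm_num [hr]
  obtain ⟨p1, p2, p3⟩ := prime_sums hC rfl ((show 2 ≤ 2 ^ R from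
    Nat.le_self_pow (by omega) 2).trans (Nat.le_self_pow (by omega) _)) y4 y6 hL r0 y8 y7
  set P := (Ioc ((2 ^ R) ^ R) Y1).filter Nat.Prime with hP
  have hM := (hc (fun p => if p ∈ P then 2 else K + 1) (K + 2) n U
    (fun p => by split_ifs <;> omega) e4 hnU).trans (mul_le_mul_of_nonneg_left
      (exp_le_exp.2 ((p3 c 2 (K + 1) c2 c3).trans (show _ ≤ (c 2 + 1) * L by nlinarith)))
      (by positivity))
  have hp : ∑ p ∈ P with p % 3 = 2, 1 / (p : ℝ) ≤ L + 5 :=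
    (sum_le_sum_of_subset_of_nonneg (filter_subset _ _) fun _ _ _ => by positivity).trans p1
  have lU : exp (2 * L) = log U ^ 2 := by rw [← hLe, ← exp_nat_mul]; norm_num
  have h := main_par (k := 86 * j) (T := exp (L / 20000)) hn (by omega) hs
    (fun l h => ⟨(s1 l h).1, (s1 l h).2.1⟩) s2 (s3.trans (Nat.pow_le_pow_right X1 j3))
    (by
      refine (Nat.mul_le_mul_right _ (Nat.pow_le_pow_left s3 2)).trans ?_
      rw [← pow_mul, ← pow_add]
      exact Nat.pow_le_pow_right X1 (by omega))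
    (Nat.pow_le_pow_right X1 (by omega)) hP (by omega) y5 (one_le_exp (by linarith))
    (hX' _ (by linarith))
    (by
      have a1 : (R + 1 : ℝ) ≤ 2 ^ j := by exact_mod_cast j1
      refine (pow_le_pow_left₀ (by linarith) a1 _).trans ?_
      rw [← exp_log two_pos, ← exp_nat_mul, ← exp_nat_mul]
      refine exp_le_exp.2 ?_
      have a2 : (j : ℝ) ^ 2 ≤ (2 * (r + 1)) ^ 2 := by gcongr
      have a3 : 10 ^ 7 * (r + 1) ^ 2 ≤ L := le_trans (by gcongr; linarith) r1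
      push_cast
      nlinarith [sq_nonneg (j : ℝ)])
    (by
      refine le_trans ?_ (hX' (2 * L) (by linarith))
      have : log Y1 ≤ log U := log_le_log (by linarith) (by exact_mod_cast y6)
      nlinarith)
    (hX' _ (by simp only [← mul_one_div (3 : ℝ), ← mul_sum]; linarith))
    (by
      have a1 : (2 : ℝ) ^ Nat.log 2 n ≤ U ^ 3 := by
        exact_mod_cast (Nat.pow_log_le_self 2 hn).trans hnU
      have a2 := log_le_log (by positivity) a1
      rw [log_pow, log_pow] at a2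
      have a3 := hX' (2 * L) (by linarith)
      have : (3 + Nat.log 2 n : ℝ) ≤ 2 ^ R := by
        push_cast at a2
        nlinarith [Nat.cast_nonneg (α := ℝ) (Nat.log 2 n)]
      exact_mod_cast this)
    hM rfl (by linarith) (even_two_mul _)
  set E := exp (-(1 / 15 * L)) with hE
  have t1 : exp (L / 20000) ^ 2 * exp (-(67 / 500 * ∑ p ∈ P with p % 3 = 2, 1 / (p : ℝ))) ≤ E := by
    rw [← exp_nat_mul, ← exp_add]
    refine exp_le_exp.2 ?_
    push_cast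
    nlinarith [le_abs_self C]
  have t2 : exp ((c 2 + 1) * L) * (1 / exp (L / 20000) ^ K) ≤ E := by
    rw [← exp_nat_mul, mul_one_div, ← exp_sub]
    exact exp_le_exp.2 (by nlinarith)
  have t3 : exp ((c 2 + 1) * L) * (1 / 2 ^ R) ≤ E := by
    refine (mul_le_mul_of_nonneg_left (one_div_le_one_div_of_le (exp_pos _) hX)
      (exp_pos _).le).trans ?_
    rw [mul_one_div, ← exp_sub]
    exact exp_le_exp.2 (by linarith)
  have t4 : 1 / 2 ^ R ≤ E := le_trans (le_mul_of_one_le_left (by positivity)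
    (one_le_exp (by positivity))) t3
  refine h.trans ?_
  calc _ = 14 * U * (exp (L / 20000) ^ 2 *
        exp (-(67 / 500 * ∑ p ∈ P with p % 3 = 2, 1 / (p : ℝ)))) + 16 * 2 ^ (13 * (K + 2)) * U *
        (exp ((c 2 + 1) * L) * (1 / exp (L / 20000) ^ K) + exp ((c 2 + 1) * L) * (1 / 2 ^ R)) +
        100 * U * (1 / 2 ^ R) := by ring
    _ ≤ 14 * U * E + 16 * 2 ^ (13 * (K + 2)) * U * (E + E) + 100 * U * E := by gcongr
    _ = _ := by ring

end Pool.Agent.Lib.MP_9c5702_nt.Save
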