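import Pool.Agent.Lib.MP_9c5702_nt.Save.Om

/-! For most `u` only few divisors of `n - u^3` make the quartic a square. -/

set_option autoImplicit false

namespace Pool.Agent.Lib.MP_9c5702_nt.Save

open Finset Real MP_488d93_nt

/-- Divisors of `n - u^3` at which the quartic is a square. -/
def DD (κ n u : ℕ) : Finset ℕ := (mm n u).divisors.filter fun d => IsSquare (HZ (κ : ℤ) n u d)

/-- Number of divisors of the part of `m` made of primes in `P`. -/
def gi (P : Finset ℕ) (m : ℕ) : ℕ := gw (fun p => if p ∈ P then 1 else 0) m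

/-- Number of divisors of the part of `m` made of primes outside `P`. -/
def go (P : Finset ℕ) (m : ℕ) : ℕ := gw (fun p => if p ∈ P then 0 else 1) m

/-- A shattered set of `k` primes. -/
def Bad (κ n u c : ℕ) (G A : Finset ℕ) (k : ℕ) : Prop :=
  ∃ I ⊆ A, I.card = k ∧ ∀ p ∈ I, ∃ S ⊆ A \ I, ∀ l ∈ G, Om κ n u l (c * (∏ p ∈ S, p) * p)

theorem gw_split (P : Finset ℕ) (a b m : ℕ) :
    gw (fun p => if p ∈ P then a else b) m = gi P m ^ a * go P m ^ b := by
  rw [gi, go, gw, gw, gw, ← prod_pow, ← prod_pow, ← prod_mul_distrib]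
  exact prod_congr rfl fun p _ => by split_ifs <;> simp

theorem card_div (P : Finset ℕ) {m : ℕ} (hm : m ≠ 0) : m.divisors.card = gi P m * go P m := by
  have := gw_split P 1 1 m
  simp only [ite_self, pow_one] at this
  rw [← this, Nat.card_divisors hm, gw]
  simp

theorem two_pow_le_gw {e : ℕ → ℕ} {m : ℕ} (hm : m ≠ 0) {S : Finset ℕ}
    (hS : ∀ p ∈ S, p.Prime ∧ p ∣ m ∧ e p = 1) : 2 ^ S.card ≤ gw e m := by
  refine (pow_card_le_prod S (fun p => (m.factorization p + 1) ^ e p) 2 fun p hp => ?_).trans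
    (prod_le_prod_of_subset_of_one_le' (fun p hp => Nat.mem_primeFactors.2
      ⟨(hS p hp).1, (hS p hp).2.1, hm⟩) fun p _ _ => Nat.one_le_pow _ _ (Nat.succ_pos _))
  rw [(hS p hp).2.2, pow_one]
  exact Nat.succ_le_succ ((hS p hp).1.factorization_pos_of_dvd hm (hS p hp).2.1)

theorem card_small (P : Finset ℕ) (k : ℕ) :
    (P.powerset.filter fun S => S.card ≤ k).card ≤ (P.card + 1) ^ k := by
  have h1 : (P.powerset.filter fun S => S.card ≤ k) ⊆
      (range (k + 1)).biUnion fun i => powersetCard i P := fun S hS =>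
    mem_biUnion.2 ⟨S.card, mem_range.2 (Nat.lt_succ_of_le (mem_filter.1 hS).2),
      mem_powersetCard.2 ⟨mem_powerset.1 (mem_filter.1 hS).1, rfl⟩⟩
  refine ((card_le_card h1).trans card_biUnion_le).trans ((sum_le_sum (g := fun i => P.card ^ i)
    fun i _ => (card_powersetCard i P).trans_le (Nat.choose_le_pow _ _)).trans ?_)
  clear h1
  induction k with
  | zero => simp
  | succ k ih =>
    rw [sum_range_succ, pow_succ, pow_succ]
    nlinarith [Nat.pow_le_pow_left (Nat.le_succ P.card) k, Nat.zero_le P.card]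

theorem shat {m k : ℕ} (hm : m ≠ 0) {P Q D : Finset ℕ} (hP : ∀ p ∈ P, p.Prime ∧ ¬ p ^ 2 ∣ m)
    (hQ : ∀ p, p ∈ Q ↔ p ∈ P ∧ p ∣ m) (hD : D ⊆ m.divisors)
    (h : go P m * (Q.card + 1) ^ k < D.card) :
    ∃ c, ∃ I ⊆ Q, I.card = k ∧ ∀ p ∈ I, ∃ S ⊆ Q \ I, c * (∏ p ∈ S, p) * p ∈ D := by
  have hQp : ∀ p ∈ Q, p.Prime := fun p hp => (hP p ((hQ p).1 hp).1).1
  obtain ⟨m2, hm2⟩ := (prod_dvd_iff hQp).2 fun p hp => ((hQ p).1 hp).2
  have h20 : m2 ≠ 0 := by rintro rfl; exact hm (by simpa using hm2)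
  set s : ℕ → Finset ℕ := fun d => Q.filter (· ∣ d) with hs
  have h1 : ∀ d, d / (∏ p ∈ s d, p) * ∏ p ∈ s d, p = d := fun d => Nat.div_mul_cancel
    ((prod_dvd_iff fun p hp => hQp p (mem_filter.1 hp).1).2 fun p hp => (mem_filter.1 hp).2)
  have h2 : ∀ d ∈ D, d / (∏ p ∈ s d, p) ∈ m2.divisors := by
    intro d hd
    have d1 := Nat.dvd_of_mem_divisors (hD hd)
    refine Nat.mem_divisors.2 ⟨Nat.Coprime.dvd_of_dvd_mul_left (m := ∏ p ∈ Q, p)
      (Nat.Coprime.prod_right fun p hp => ((hQp p hp).coprime_iff_not_dvd.2 fun e => ?_).symm)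
      (hm2 ▸ (Dvd.intro _ (h1 d)).trans d1), h20⟩
    refine (hP p ((hQ p).1 hp).1).2 (Dvd.dvd.trans ?_ d1)
    rw [← h1 d, sq]
    exact mul_dvd_mul e (dvd_prod_of_mem _ (mem_filter.2 ⟨hp, e.trans (Dvd.intro _ (h1 d))⟩))
  have h3 : m2.divisors.card ≤ go P m := by
    have a1 : m2 ∣ m := Dvd.intro_left _ hm2.symm
    rw [Nat.card_divisors h20]
    refine (prod_le_prod' fun p hp => ?_).trans (prod_le_prod_of_subset_of_one_le'
      (Nat.primeFactors_mono a1 hm) fun p _ _ => Nat.one_le_pow _ _ (Nat.succ_pos _))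
    have a2 := Nat.dvd_of_mem_primeFactors hp
    have a3 : p ∉ P := fun e => (hP p e).2 (by
      rw [hm2, sq]
      exact mul_dvd_mul (dvd_prod_of_mem _ ((hQ p).2 ⟨e, a2.trans a1⟩)) a2)
    beta_reduce
    rw [if_neg a3, pow_one]
    exact Nat.succ_le_succ ((Nat.factorization_le_iff_dvd h20 hm).2 a1 p)
  obtain ⟨c, -, hc⟩ := exists_lt_card_fiber_of_mul_lt_card_of_maps_to h2
    ((Nat.mul_le_mul_right _ h3).trans_lt h)
  set F := D.filter fun d => d / (∏ p ∈ s d, p) = c with hF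
  have h4 : (F.image s).card = F.card := card_image_of_injOn fun d hd d' hd' e => by
    rw [← h1 d, ← h1 d', (mem_filter.1 hd).2, (mem_filter.1 hd').2, e]
  obtain ⟨I0, i1, i2⟩ : ∃ I ∈ (F.image s).shatterer, k ≤ I.card := by
    by_contra! h5
    have a1 : (F.image s).shatterer ⊆ Q.powerset.filter fun S => S.card ≤ k := fun I hI => by
      obtain ⟨t, t1, t2⟩ := (mem_shatterer.1 hI).exists_superset
      obtain ⟨d, -, rfl⟩ := mem_image.1 t1
      exact mem_filter.2 ⟨mem_powerset.2 (t2.trans (filter_subset _ _)), (h5 I hI).le⟩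
    have := (card_le_card_shatterer _).trans ((card_le_card a1).trans (card_small Q k))
    omega
  obtain ⟨I, i3, i4⟩ := exists_subset_card_eq i2
  have i5 := (mem_shatterer.1 i1).mono_right i3
  refine ⟨c, I, ?_, i4, fun p hp => ?_⟩
  · obtain ⟨t, t1, t2⟩ := i5.exists_superset
    obtain ⟨d, -, rfl⟩ := mem_image.1 t1
    exact t2.trans (filter_subset _ _)
  · obtain ⟨t, t1, t2⟩ := i5.exists_inter_eq_singleton hp
    obtain ⟨d, d1, rfl⟩ := mem_image.1 t1
    refine ⟨s d \ I, sdiff_subset_sdiff (filter_subset _ _) Subset.rfl, ?_⟩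
    have a1 := prod_inter_mul_prod_sdiff (s d) I fun p => p
    rw [inter_comm, t2, prod_singleton] at a1
    rw [mul_assoc, mul_comm _ p, a1, ← (mem_filter.1 d1).2, h1 d]
    exact (mem_filter.1 d1).1

theorem esymm_le (G : Finset ℕ) {w : ℕ → ℝ} (hw : ∀ p, 0 ≤ w p) {η : ℝ} (hη : 0 < η)
    (h : ∑ p ∈ G, w p ≤ η) (k : ℕ) : ∑ I ∈ powersetCard k G, ∏ p ∈ I, w p ≤ 3 * η ^ k := by
  have h1 := prod_le_exp_sum G (fun p => w p / η) fun p _ => div_nonneg (hw p) hη.le
  have h2 : exp (∑ p ∈ G, w p / η) ≤ 3 := by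
    rw [← sum_div]
    exact (exp_le_exp.2 ((div_le_one hη).2 h)).trans (by linarith [exp_one_lt_d9])
  rw [prod_one_add] at h1
  have h3 := sum_le_sum_of_subset_of_nonneg (f := fun I => ∏ p ∈ I, w p / η)
    (s := powersetCard k G) (t := G.powerset)
    (fun I hI => mem_powerset.2 (mem_powersetCard.1 hI).1)
    fun _ _ _ => prod_nonneg fun p _ => div_nonneg (hw p) hη.le
  rw [← div_le_iff₀ (by positivity), sum_div]
  refine le_trans (le_of_eq (sum_congr rfl fun I hI => ?_)) (h3.trans (h1.trans h2))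
  rw [prod_div_distrib, prod_const, (mem_powersetCard.1 hI).2]

theorem bad_weight (P : Finset ℕ) {w : ℕ → ℝ} (hw : ∀ p, 0 ≤ w p) {η : ℝ} (hη : 0 < η) {R k : ℕ}
    (Gd : Finset ℕ → Finset ℕ) (h : ∀ J : Finset ℕ, J.card ≤ R → ∑ p ∈ Gd J, w p ≤ η)
    (B : Finset (Finset ℕ))
    (hB : ∀ A ∈ B, A ⊆ P ∧ A.card ≤ R ∧ ∃ I ⊆ A, I.card = k ∧ I ⊆ Gd (A \ I)) :
    ∑ A ∈ B, ∏ p ∈ A, w p ≤ exp (∑ p ∈ P, w p) * (3 * η ^ k) := by
  choose! h1 h2 I h3 h4 h5 using hB
  have h6 := sum_le_sum_inj (s := B) (f := fun A => ∏ p ∈ A, w p)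
    (t := (P.powerset.filter fun J => J.card ≤ R).sigma fun J => powersetCard k (Gd J))
    (g := fun x => (∏ p ∈ x.1, w p) * ∏ p ∈ x.2, w p) (fun A => ⟨A \ I A, I A⟩)
    (fun A hA A' hA' e => by
      have e1 : A \ I A = A' \ I A' := congrArg Sigma.fst e
      have e2 : I A = I A' := congrArg (fun x : (_ : Finset ℕ) × Finset ℕ => x.2) e
      rw [← sdiff_union_of_subset (h3 A hA), e1, e2, sdiff_union_of_subset (h3 A' hA')])
    (fun A hA => mem_sigma.2 ⟨mem_filter.2 ⟨mem_powerset.2 (sdiff_subset.trans (h1 A hA)),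
      (card_le_card sdiff_subset).trans (h2 A hA)⟩, mem_powersetCard.2 ⟨h5 A hA, h4 A hA⟩⟩)
    (fun A hA => (prod_sdiff (h3 A hA)).ge)
    fun _ _ => mul_nonneg (prod_nonneg fun p _ => hw p) (prod_nonneg fun p _ => hw p)
  rw [sum_sigma] at h6
  refine h6.trans ((sum_le_sum (g := fun J => (∏ p ∈ J, w p) * (3 * η ^ k)) fun J hJ => ?_).trans ?_)
  · dsimp only
    rw [← mul_sum]
    exact mul_le_mul_of_nonneg_left (esymm_le _ hw hη (h J (mem_filter.1 hJ).2) k)
      (prod_nonneg fun p _ => hw p)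
  · rw [← sum_mul]
    refine mul_le_mul_of_nonneg_right ?_ (by positivity)
    refine le_trans ?_ (prod_le_exp_sum P w fun p _ => hw p)
    rw [prod_one_add]
    exact sum_le_sum_of_subset_of_nonneg (filter_subset _ _)
      fun _ _ _ => prod_nonneg fun p _ => hw p

open Classical in
theorem count_bad {κ n U Y0 Y1 R k w : ℕ} {L P : Finset ℕ} (hL : ∀ l ∈ L, l.Prime ∧ 75 ≤ l)
    (hq : ∏ l ∈ L, l ≤ Y0) (hP : P = (Ioc Y0 Y1).filter Nat.Prime) (h1 : 1 ≤ Y1) (hU : Y1 ^ R ≤ U) :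
    (((Ioc 0 U).filter fun u => (PP P n u).card ≤ R ∧ w ≤ (L \ PP L n u).card ∧
      ∃ c, Bad κ n u c (L \ PP L n u) (PP P n u) k).card : ℝ) ≤
      (∏ l ∈ L, l : ℕ) ^ 2 * (2 * U * (exp (∑ p ∈ P, 3 / (p : ℝ)) *
        (3 * (2 ^ R * (3 * ((4 / 5) ^ w * (1 + log Y1)))) ^ k))) := by
  set q := ∏ l ∈ L, l with hqd
  have q0 : 0 < q := prod_pos fun l hl => (hL l hl).1.pos
  have hlog : 0 ≤ log Y1 := log_natCast_nonneg _
  have hPp : ∀ p ∈ P, p.Prime ∧ p ≤ Y1 := fun p hp => by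
    rw [hP] at hp
    exact ⟨(mem_filter.1 hp).2, (mem_Ioc.1 (mem_filter.1 hp).1).2⟩
  set B : ℕ × ℕ → Finset (Finset ℕ) := fun x => P.powerset.filter fun A => A.card ≤ R ∧
    w ≤ (L \ PP L n x.1).card ∧ Bad κ n x.1 x.2 (L \ PP L n x.1) A k with hB
  have h2 : ((Ioc 0 U).filter fun u => (PP P n u).card ≤ R ∧ w ≤ (L \ PP L n u).card ∧
      ∃ c, Bad κ n u c (L \ PP L n u) (PP P n u) k) ⊆ (range q ×ˢ range q).biUnion fun x =>
        (B x).biUnion fun A => (Ioc 0 U).filter fun u => ∀ p ∈ A, u ^ 3 ≡ n [MOD p] := by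
    intro u hu
    obtain ⟨a1, a2, a3, c, I, a4, a5, a6⟩ := mem_filter.1 hu
    have e : PP L n (u % q) = PP L n u := filter_congr fun l hl => by
      have := ((Nat.mod_modEq u q).of_dvd (dvd_prod_of_mem _ hl)).pow 3
      exact ⟨this.symm.trans, this.trans⟩
    refine mem_biUnion.2 ⟨(u % q, c % q), mem_product.2 ⟨mem_range.2 (Nat.mod_lt _ q0),
      mem_range.2 (Nat.mod_lt _ q0)⟩, mem_biUnion.2 ⟨PP P n u, mem_filter.2
        ⟨mem_powerset.2 (filter_subset _ _), a2, ?_, I, a4, a5, fun p hp => ?_⟩,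
        mem_filter.2 ⟨a1, fun p hp => (mem_filter.1 hp).2⟩⟩⟩
    · rwa [e]
    · obtain ⟨S, s1, s2⟩ := a6 p hp
      refine ⟨S, s1, fun l hl => ?_⟩
      rw [e] at hl
      have := dvd_prod_of_mem (fun l => l) (mem_sdiff.1 hl).1
      exact (Om_congr ((Nat.mod_modEq u q).of_dvd this)
        ((((Nat.mod_modEq c q).of_dvd this).mul_right _).mul_right _)).2 (s2 l hl)
  have h3 : ∀ x ∈ range q ×ˢ range q, ∑ A ∈ B x,
      (((Ioc 0 U).filter fun u => ∀ p ∈ A, u ^ 3 ≡ n [MOD p]).card : ℝ) ≤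
      2 * U * (exp (∑ p ∈ P, 3 / (p : ℝ)) *
        (3 * (2 ^ R * (3 * ((4 / 5) ^ w * (1 + log Y1)))) ^ k)) := by
    rintro ⟨u, c⟩ -
    refine (sum_le_sum (g := fun A : Finset ℕ => 2 * U * ∏ p ∈ A, 3 / (p : ℝ)) fun A hA => ?_).trans ?_
    · have a1 := mem_powerset.1 (mem_filter.1 hA).1
      exact count_set_le n U A (fun p hp => (hPp p (a1 hp)).1)
        ((prod_le_pow_card A (fun p => p) Y1 fun p hp => (hPp p (a1 hp)).2).trans
          ((Nat.pow_le_pow_right h1 (mem_filter.1 hA).2.1).trans hU))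
    rw [← mul_sum]
    refine mul_le_mul_of_nonneg_left ?_ (by positivity)
    by_cases hw : w ≤ (L \ PP L n u).card
    swap
    · rw [sum_eq_zero fun A hA => absurd (mem_filter.1 hA).2.2.1 hw]
      positivity
    set G := L \ PP L n u with hG
    refine bad_weight P (fun p => by positivity) (by positivity) (R := R)
      (fun J => (Ioc Y0 Y1).filter fun p => ∃ S ⊆ J, ∀ l ∈ G, Om κ n u l (c * (∏ p ∈ S, p) * p))
      (fun J hJ => ?_) _ fun A hA => ?_
    · have a1 : ∀ b, ∑ a ∈ Ioc Y0 Y1 with ∀ l ∈ G, Om κ n u l (b * a), 3 / (a : ℝ) ≤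
          3 * ((4 / 5) ^ w * (1 + log Y1)) := fun b => by
        have b1 := harm (G := G) (κ := κ) (n := n) (u := u) (Y0 := Y0) (fun l hl =>
          ⟨(hL l (mem_sdiff.1 hl).1).1, (hL l (mem_sdiff.1 hl).1).2,
            fun e => (mem_sdiff.1 hl).2 (mem_filter.2 ⟨(mem_sdiff.1 hl).1, e⟩)⟩)
          ((prod_le_prod_of_subset_of_one_le' sdiff_subset fun l hl _ =>
            (hL l hl).1.one_le).trans hq) b Y1
        have b2 : (4 / 5 : ℝ) ^ G.card ≤ (4 / 5) ^ w :=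
          pow_le_pow_of_le_one (by norm_num) (by norm_num) hw
        simp only [← mul_one_div (3 : ℝ), ← mul_sum]
        gcongr
        exact b1.trans (by gcongr)
      calc _ ≤ ∑ a ∈ Ioc Y0 Y1, ∑ S ∈ J.powerset,
            if ∀ l ∈ G, Om κ n u l (c * (∏ p ∈ S, p) * a) then 3 / (a : ℝ) else 0 := by
            rw [sum_filter]
            refine sum_le_sum fun a _ => ?_
            split_ifs with h
            · obtain ⟨S, s1, s2⟩ := h
              have := single_le_sum (s := J.powerset) (f := fun S =>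
                if ∀ l ∈ G, Om κ n u l (c * (∏ p ∈ S, p) * a) then 3 / (a : ℝ) else 0)
                (fun _ _ => by positivity) (mem_powerset.2 s1)
              rwa [if_pos s2] at this
            · exact sum_nonneg fun _ _ => by positivity
        _ ≤ ∑ S ∈ J.powerset, 3 * ((4 / 5) ^ w * (1 + log Y1)) := by
            rw [sum_comm]
            exact sum_le_sum fun S _ => by rw [← sum_filter]; exact a1 _
        _ ≤ _ := by
            rw [sum_const, card_powerset, nsmul_eq_mul]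
            push_cast
            gcongr
            norm_num
    · obtain ⟨a1, a2, -, I, a4, a5, a6⟩ := mem_filter.1 hA
      refine ⟨mem_powerset.1 a1, a2, I, a4, a5, fun p hp => mem_filter.2 ⟨?_, a6 p hp⟩⟩
      have := mem_powerset.1 a1 (a4 hp)
      rw [hP] at this
      exact (mem_filter.1 this).1
  have h4 := (card_le_card h2).trans (card_biUnion_le.trans (sum_le_sum fun x _ => card_biUnion_le))
  refine le_trans (by exact_mod_cast h4) ((sum_le_card_nsmul _ _ _ h3).trans (le_of_eq ?_))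
  rw [card_product, card_range, nsmul_eq_mul]
  push_cast
  ring

open Classical in
theorem card_DD_le {κ n u R k w K : ℕ} {L P : Finset ℕ} {T : ℝ} (hu : u ^ 3 ≠ n)
    (hL : ∀ l ∈ L, l.Prime ∧ l ∉ P) (hP : ∀ p ∈ P, p.Prime) (hT : 1 ≤ T) (hTw : T ≤ 2 ^ w)
    (hw : 2 * w ≤ L.card) : ((DD κ n u).card : ℝ) ≤ T * (R + 1) ^ k +
      gw (fun p => if p ∈ P then 2 else K + 1) (mm n u) * (1 / T ^ K + 1 / 2 ^ R) +
      T * 2 ^ R * ((if (PP P n u).card ≤ R ∧ w ≤ (L \ PP L n u).card ∧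
        ∃ c, Bad κ n u c (L \ PP L n u) (PP P n u) k then 1 else 0) +
        if ∃ p ∈ P, u ^ 3 ≡ n [MOD p ^ 2] then 1 else 0) := by
  have hm := mm_ne hu
  have h1 : ((DD κ n u).card : ℝ) ≤ gi P (mm n u) * go P (mm n u) := by
    exact_mod_cast (card_filter_le _ _).trans_eq (card_div P hm)
  rw [gw_split]
  push_cast
  have a1 : (1 : ℝ) ≤ gi P (mm n u) := by exact_mod_cast one_le_gw _ _
  have b1 : (1 : ℝ) ≤ go P (mm n u) := by exact_mod_cast one_le_gw _ _
  have a2 : (2 : ℝ) ^ (PP P n u).card ≤ gi P (mm n u) := by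
    exact_mod_cast two_pow_le_gw hm fun p hp =>
      ⟨hP p (mem_filter.1 hp).1, dvd_mm.2 (mem_filter.1 hp).2, if_pos (mem_filter.1 hp).1⟩
  have b2 : (2 : ℝ) ^ (PP L n u).card ≤ go P (mm n u) := by
    exact_mod_cast two_pow_le_gw hm fun p hp => ⟨(hL p (mem_filter.1 hp).1).1,
      dvd_mm.2 (mem_filter.1 hp).2, if_neg (hL p (mem_filter.1 hp).1).2⟩
  have hsh := fun h1 h2 => shat (k := k) hm (P := P) (Q := PP P n u) (D := DD κ n u) h1
    (fun p => by rw [PP, mem_filter, dvd_mm]) (filter_subset _ _) h2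
  set a : ℝ := (gi P (mm n u) : ℝ)
  set b : ℝ := (go P (mm n u) : ℝ) with hb
  set x : ℝ := if (PP P n u).card ≤ R ∧ w ≤ (L \ PP L n u).card ∧
    ∃ c, Bad κ n u c (L \ PP L n u) (PP P n u) k then 1 else 0 with hx
  set y : ℝ := if ∃ p ∈ P, u ^ 3 ≡ n [MOD p ^ 2] then 1 else 0 with hy
  have x0 : 0 ≤ x := by rw [hx]; positivity
  have y0 : 0 ≤ y := by rw [hy]; positivity
  have z1 : 0 ≤ T * (R + 1) ^ k := by positivity
  have z2 : 0 ≤ a ^ 2 * b ^ (K + 1) * (1 / T ^ K) := by positivity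
  have z3 : 0 ≤ a ^ 2 * b ^ (K + 1) * (1 / 2 ^ R) := by positivity
  have z4 : 0 ≤ T * 2 ^ R * x := by positivity
  have z5 : 0 ≤ T * 2 ^ R * y := by positivity
  rw [mul_add, mul_add]
  by_cases c1 : T < b
  · have : a * b ≤ a ^ 2 * b ^ (K + 1) * (1 / T ^ K) := by
      rw [mul_one_div, le_div_iff₀ (by positivity), pow_succ' b, ← mul_assoc]
      gcongr
      nlinarith
    linarith
  by_cases c2 : 2 ^ R < a
  · have : a * b ≤ a ^ 2 * b ^ (K + 1) * (1 / 2 ^ R) := by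
      rw [mul_one_div, le_div_iff₀ (by positivity), mul_right_comm, sq]
      gcongr
      exact le_self_pow₀ b1 (Nat.succ_ne_zero K)
    linarith
  rw [not_lt] at c1 c2
  have h2 : a * b ≤ T * 2 ^ R := by rw [mul_comm]; gcongr
  by_cases c3 : ∃ p ∈ P, u ^ 3 ≡ n [MOD p ^ 2]
  · rw [if_pos c3] at hy
    rw [hy]
    linarith
  have r1 : (PP P n u).card ≤ R := (pow_le_pow_iff_right₀ one_lt_two).1 (a2.trans c2)
  by_cases c4 : go P (mm n u) * ((PP P n u).card + 1) ^ k < (DD κ n u).card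
  · obtain ⟨c, I, i1, i2, i3⟩ :=
      hsh (fun p hp => ⟨hP p hp, fun e => c3 ⟨p, hp, dvd_mm.1 e⟩⟩) c4
    have r2 : (PP L n u).card ≤ w := (pow_le_pow_iff_right₀ one_lt_two).1 (b2.trans (c1.trans hTw))
    rw [if_pos ⟨r1, by have := le_card_sdiff (PP L n u) L; omega, c, I, i1, i2, fun p hp => by
      obtain ⟨S, s1, s2⟩ := i3 p hp
      refine ⟨S, s1, fun l hl => ?_⟩
      obtain ⟨s3, r, s4⟩ := mem_filter.1 s2
      refine ⟨fun e => (mem_sdiff.1 hl).2 (mem_filter.2 ⟨(mem_sdiff.1 hl).1, dvd_mm.1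
        (((ZMod.natCast_eq_zero_iff _ _).1 e).trans (Nat.dvd_of_mem_divisors s3))⟩), r, ?_⟩
      have := congrArg (Int.cast : ℤ → ZMod l) s4
      simpa [HZ] using this⟩] at hx
    rw [hx]
    linarith
  · have r2 : ((DD κ n u).card : ℝ) ≤ b * ((PP P n u).card + 1) ^ k := by
      rw [hb]
      exact_mod_cast not_lt.1 c4
    have r4 : ((PP P n u).card : ℝ) ≤ R := by exact_mod_cast r1
    have r5 : (0 : ℝ) ≤ (PP P n u).card + 1 := add_nonneg (Nat.cast_nonneg _) zero_le_one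
    have r3 : b * ((PP P n u).card + 1) ^ k ≤ T * (R + 1) ^ k :=
      mul_le_mul c1 (pow_le_pow_left₀ r5 (by linarith) k) (pow_nonneg r5 k) (by linarith)
    linarith

end Pool.Agent.Lib.MP_9c5702_nt.Save
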