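import Pool.Agent.Lib.MP_9c5702_nt.Save.Count

/-! The quadratic residue conditions satisfied by `x + y`. -/

set_option autoImplicit false

namespace Pool.Agent.Lib.MP_9c5702_nt.Save

open Finset Polynomial MP_488d93_nt

/-- The quartic that is a square at `t = x + y` when `u = z + κ (x + y)`. -/
def HZ {R : Type*} [CommRing R] (κ n u t : R) : R :=
  3 * t * (4 * n - 4 * (u - κ * t) ^ 3 - t ^ 3)

/-- The condition modulo `l`. -/
def Om (κ n u l t : ℕ) : Prop := (t : ZMod l) ≠ 0 ∧ IsSquare (HZ (κ : ZMod l) n u t)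

open Classical in
/-- a cubic takes square values at most three quarters of the time -/
theorem stepanov {l : ℕ} [Fact l.Prime] (h2 : l ≠ 2) (f : (ZMod l)[X]) (hf : f.natDegree = 3) :
    4 * (univ.filter fun a : ZMod l => IsSquare (f.eval a)).card ≤ 3 * l + 15 := by
  have hp : l.Prime := Fact.out
  obtain ⟨c, hc⟩ : ∃ c, l = 2 * (c + 1) + 1 := by
    have := hp.eq_two_or_odd'.resolve_left h2
    obtain ⟨c, hc⟩ := this
    have := hp.two_le
    exact ⟨c - 1, by omega⟩
  have hf0 : f ≠ 0 := by rintro rfl; simp at hf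
  have two : (2 : ZMod l) ≠ 0 := fun h => h2 ((Nat.prime_dvd_prime_iff_eq hp Nat.prime_two).1
    ((ZMod.natCast_eq_zero_iff 2 l).1 (by exact_mod_cast h)))
  set R : (ZMod l)[X] := C 2 * f ^ (c + 2) - (C 2 * f + derivative f * (X ^ l - X)) with hR
  have d1 : (C 2 * f ^ (c + 2)).natDegree = 3 * c + 6 := by
    rw [natDegree_C_mul two, natDegree_pow, hf]
    ring
  have d2 : (C 2 * f + derivative f * (X ^ l - X)).natDegree ≤ 2 * c + 5 := by
    refine natDegree_add_le_of_degree_le ((natDegree_C_mul_le _ _).trans (by omega))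
      (natDegree_mul_le.trans ?_)
    have a1 := natDegree_derivative_le f
    have a2 : (X ^ l - X : (ZMod l)[X]).natDegree ≤ l :=
      (natDegree_sub_le _ _).trans (max_le (natDegree_X_pow_le _) (natDegree_X_le.trans hp.one_le))
    omega
  have d3 : R.natDegree = 3 * c + 6 := by
    rw [hR, natDegree_sub_eq_left_of_natDegree_lt (by omega), d1]
  have hR0 : R ≠ 0 := by intro h; rw [h] at d3; simp at d3
  set S := univ.filter fun a : ZMod l => (f.eval a) ^ (c + 1) = 1 with hS
  have hl : ((l : ℕ) : ZMod l) = 0 := ZMod.natCast_self l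
  have hc2 : 2 * (c : ZMod l) + 3 = 0 := by
    have := congrArg (Nat.cast : ℕ → ZMod l) hc
    push_cast at this
    linear_combination hl - this
  have h1 : ∀ a ∈ S, 2 ≤ R.roots.count a := by
    intro a ha
    have a1 := (mem_filter.1 ha).2
    rw [count_roots]
    refine (one_lt_rootMultiplicity_iff_isRoot hR0).2 ⟨?_, ?_⟩
    · simp only [hR, IsRoot, eval_sub, eval_mul, eval_C, eval_pow, eval_add, eval_X, ZMod.pow_card]
      rw [pow_succ, a1]
      ring
    · simp only [hR, IsRoot, derivative_sub, derivative_add, derivative_mul, derivative_C,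
        derivative_pow, derivative_X, eval_sub, eval_mul, eval_C, eval_pow, eval_add, eval_X,
        ZMod.pow_card, eval_zero, eval_one, hl, show c + 2 - 1 = c + 1 from rfl, a1]
      push_cast
      linear_combination (eval a (derivative f)) * hc2
  have h3 : 2 * S.card ≤ 3 * c + 6 := by
    calc 2 * S.card ≤ ∑ a ∈ S, R.roots.count a := by
          rw [mul_comm]
          exact card_nsmul_le_sum _ _ _ h1
      _ ≤ ∑ a : ZMod l, R.roots.count a := sum_le_sum_of_subset (subset_univ _)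
      _ = R.roots.card := Multiset.sum_count_eq_card fun _ _ => mem_univ _
      _ ≤ _ := d3 ▸ card_roots' R
  have h4 : (univ.filter fun a : ZMod l => IsSquare (f.eval a)) ⊆ S ∪ f.roots.toFinset := by
    intro a ha
    by_cases h : f.eval a = 0
    · exact mem_union_right _ (Multiset.mem_toFinset.2 ((mem_roots hf0).2 h))
    · refine mem_union_left _ (mem_filter.2 ⟨mem_univ _, ?_⟩)
      have := (ZMod.euler_criterion l h).1 (mem_filter.1 ha).2
      rwa [show l / 2 = c + 1 by omega] at this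
  have h5 := (card_le_card h4).trans (card_union_le _ _)
  have h6 := (Multiset.toFinset_card_le f.roots).trans (card_roots' f)
  omega

open Classical in
theorem card_Om {l : ℕ} (hp : l.Prime) (hl : 75 ≤ l) (κ : ℕ) {n u : ℕ} (h : ¬ u ^ 3 ≡ n [MOD l])
    (b : ℕ) : 5 * ((range l).filter fun t => Om κ n u l (b * t)).card ≤ 4 * l := by
  have := Fact.mk hp
  have h12 : (12 : ZMod l) ≠ 0 := fun h => by
    have := Nat.le_of_dvd (by norm_num) ((ZMod.natCast_eq_zero_iff 12 l).1 (by exact_mod_cast h))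
    omega
  have h0 : (12 : ZMod l) * (n - u ^ 3) ≠ 0 := mul_ne_zero h12 fun h1 => h (by
    rw [← ZMod.natCast_eq_natCast_iff]
    push_cast
    linear_combination -h1)
  set f : (ZMod l)[X] := C (12 * (n - u ^ 3) : ZMod l) * X ^ 3 + C (36 * κ * u ^ 2 : ZMod l) * X ^ 2 +
    C (-(36 * κ ^ 2 * u) : ZMod l) * X + C (3 * (4 * κ ^ 3 - 1) : ZMod l) with hf
  have h1 := stepanov (by omega) f (natDegree_cubic h0)
  have h2 : ((range l).filter fun t => Om κ n u l (b * t)).card ≤
      (univ.filter fun a : ZMod l => IsSquare (f.eval a)).card := by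
    refine card_le_card_of_injOn (fun t => ((b * t : ℕ) : ZMod l)⁻¹) (fun t ht => ?_)
      fun t ht s hs e => ?_
    · obtain ⟨a1, r, a2⟩ := (mem_filter.1 ht).2
      refine mem_filter.2 ⟨mem_univ _, r * (((b * t : ℕ) : ZMod l)⁻¹) ^ 2, ?_⟩
      beta_reduce
      generalize ((b * t : ℕ) : ZMod l) = T at a1 a2 ⊢
      simp only [hf, eval_add, eval_mul, eval_C, eval_pow, eval_X]
      rw [HZ] at a2
      field_simp
      linear_combination a2
    · have a1 := (mem_filter.1 ht).2.1
      have a2 := inv_injective e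
      push_cast at a1 a2
      have a3 := mul_left_cancel₀ (left_ne_zero_of_mul a1) a2
      exact ((ZMod.natCast_eq_natCast_iff _ _ _).1 a3).eq_of_lt_of_lt
        (mem_range.1 (mem_filter.1 ht).1) (mem_range.1 (mem_filter.1 hs).1)
  omega

theorem Om_congr {κ n u u' l t t' : ℕ} (hu : u ≡ u' [MOD l]) (ht : t ≡ t' [MOD l]) :
    Om κ n u l t ↔ Om κ n u' l t' := by
  rw [Om, Om, (ZMod.natCast_eq_natCast_iff _ _ _).2 hu, (ZMod.natCast_eq_natCast_iff _ _ _).2 ht]

open Classical in
theorem harm {G : Finset ℕ} {κ n u Y0 : ℕ} (hG : ∀ l ∈ G, l.Prime ∧ 75 ≤ l ∧ ¬ u ^ 3 ≡ n [MOD l])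
    (hY : ∏ l ∈ G, l ≤ Y0) (b Y1 : ℕ) :
    ∑ a ∈ Ioc Y0 Y1 with ∀ l ∈ G, Om κ n u l (b * a), 1 / (a : ℝ) ≤
      (4 / 5) ^ G.card * (1 + Real.log Y1) := by
  set M := ∏ l ∈ G, l with hM
  have M0 : 0 < M := prod_pos fun l hl => (hG l hl).1.pos
  have M1 : (0 : ℝ) < M := by exact_mod_cast M0
  set T := (range M).filter fun a => ∀ l ∈ G, Om κ n u l (b * a) with hT
  have h1 : (T.card : ℝ) ≤ (4 / 5) ^ G.card * M := by
    have h2 := crt_prod G (fun l hl => (hG l hl).1)
      (fun l a => if Om κ n u l (b * a) then 1 else 0) fun l a => by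
        simp only [Om_congr (κ := κ) (n := n) (Nat.ModEq.refl u) ((Nat.mod_modEq a l).mul_left b)]
    have h3 : (T.card : ℝ) = ∑ a ∈ range M, ∏ l ∈ G, if Om κ n u l (b * a) then (1 : ℝ) else 0 := by
      rw [hT, card_filter]
      push_cast
      refine sum_congr rfl fun a _ => ?_
      rw [prod_ite_zero, prod_const_one]
    rw [h3, h2, hM, Nat.cast_prod, ← prod_const, ← prod_mul_distrib]
    refine prod_le_prod (fun l _ => sum_nonneg fun _ _ => by split_ifs <;> norm_num) fun l hl => ?_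
    have h4 : (5 * ((range l).filter fun t => Om κ n u l (b * t)).card : ℝ) ≤ 4 * l := by
      exact_mod_cast card_Om (hG l hl).1 (hG l hl).2.1 κ (hG l hl).2.2 b
    rw [sum_boole]
    linarith
  have h2 : ∑ a ∈ Ioc Y0 Y1 with ∀ l ∈ G, Om κ n u l (b * a), 1 / (a : ℝ) ≤
      ∑ x ∈ Icc 1 Y1 ×ˢ T, 1 / ((x.1 : ℝ) * M) := by
    refine sum_le_sum_inj (fun a => (a / M, a % M)) (fun a _ a' _ e => ?_) (fun a ha => ?_)
      (fun a ha => ?_) fun _ _ => by positivity
    · obtain ⟨e1, e2⟩ := Prod.ext_iff.1 e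
      simp only at e1 e2
      rw [← Nat.div_add_mod a M, ← Nat.div_add_mod a' M, e1, e2]
    · obtain ⟨a1, a2⟩ := mem_filter.1 ha
      obtain ⟨a3, a4⟩ := mem_Ioc.1 a1
      refine mem_product.2 ⟨mem_Icc.2 ⟨(Nat.le_div_iff_mul_le M0).2 (by omega),
        (Nat.div_le_self _ _).trans a4⟩, mem_filter.2 ⟨mem_range.2 (Nat.mod_lt _ M0), fun l hl => ?_⟩⟩
      exact (Om_congr (Nat.ModEq.refl u)
        (((Nat.mod_modEq a M).of_dvd (dvd_prod_of_mem _ hl)).mul_left b)).2 (a2 l hl)
    · obtain ⟨a3, a4⟩ := mem_Ioc.1 (mem_filter.1 ha).1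
      have a5 : 0 < a / M := (Nat.le_div_iff_mul_le M0).2 (by omega)
      refine one_div_le_one_div_of_le (by positivity) ?_
      exact_mod_cast Nat.div_mul_le_self a M
  refine h2.trans ?_
  rw [sum_product]
  simp only [sum_const, nsmul_eq_mul]
  have h3 : ∑ i ∈ Icc 1 Y1, (1 / i : ℝ) ≤ 1 + Real.log Y1 := by
    have a1 := harmonic_le_one_add_log Y1
    rw [harmonic_eq_sum_Icc] at a1
    push_cast at a1
    simpa only [one_div] using a1
  calc _ ≤ ∑ i ∈ Icc 1 Y1, (4 / 5) ^ G.card * (1 / i : ℝ) := by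
        refine sum_le_sum fun i _ => ?_
        calc _ ≤ (4 / 5) ^ G.card * M * (1 / ((i : ℝ) * M)) := by gcongr
          _ = _ := by field_simp
    _ ≤ _ := by
        rw [← mul_sum]
        gcongr

end Pool.Agent.Lib.MP_9c5702_nt.Save
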