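import Pool.Agent.Lib.MP_9c5702_nt.Save.Count
import Pool.Agent.Lib.MP_9c5702_nt.Mertens
import Pool.Agent.Shared.PNT.Main

/-! Large deviations for the number of primes `2 mod 3` dividing `n - u^3`, and prime sums. -/

set_option autoImplicit false

namespace Pool.Agent.Lib.MP_9c5702_nt.Save

open Finset Real MP_488d93_nt Filter

theorem cube_pow {p : ℕ} (hp : p.Prime) (h3 : p % 3 = 2) (x : ZMod p) :
    x ^ (3 * (2 * (p / 3) + 1)) = x := by
  have := Fact.mk hp
  have h1 : x ^ (p - 1) * x = x := by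
    rw [← pow_succ, Nat.sub_add_cancel hp.one_le, ZMod.pow_card]
  rw [show 3 * (2 * (p / 3) + 1) = (p - 1) + p by omega, pow_add, ZMod.pow_card, h1]

theorem cube_inj {p : ℕ} (hp : p.Prime) (h3 : p % 3 = 2) {x y : ZMod p} (h : x ^ 3 = y ^ 3) :
    x = y := by
  rw [← cube_pow hp h3 x, ← cube_pow hp h3 y, pow_mul, pow_mul, h]

theorem rho_eq_one {p : ℕ} (hp : p.Prime) (h3 : p % 3 = 2) (n : ℕ) : rho n p = 1 := by
  rw [rho, Nat.card_eq_one_iff_exists]
  refine ⟨⟨(n : ZMod p) ^ (2 * (p / 3) + 1), by rw [← pow_mul, mul_comm, cube_pow hp h3]⟩,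
    fun y => Subtype.ext (cube_inj hp h3 ?_)⟩
  rw [y.2, ← pow_mul, mul_comm, cube_pow hp h3]

theorem sy_mean {P : Finset ℕ} {Y K : ℕ} (hY : 1 ≤ Y) (hP : ∀ p ∈ P, p.Prime ∧ p % 3 = 2 ∧ p ≤ Y)
    {c : ℕ → ℝ} (h1 : ∀ j, |c j| ≤ 1) (h2 : ∀ j, K < j → c j = 0) (n U : ℕ) :
    ∑ u ∈ Ioc 0 U, sy c P (fun p => if u ^ 3 ≡ n [MOD p] then 1 / 2 else 0) ≤
      U * sy c P (fun p => 1 / 2 * (1 / p)) + 4 * Y ^ (2 * K) := by
  have h := ML_mean (P := P) (fun p hp => (hP p hp).1) (lam := fun S => c S.card) (R := Y ^ K)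
    (fun S => h1 _) (fun S hS h => by
      refine (prod_le_pow_card S (fun p => p) Y fun p hp => (hP p (hS hp)).2.2).trans ?_
      exact Nat.pow_le_pow_right hY (not_lt.1 fun h3 => h (h2 _ h3)))
    (fun p u => if u ^ 3 ≡ n [MOD p] then 1 / 2 else 0) (fun p u => by
      have : (u % p) ^ 3 ≡ n [MOD p] ↔ u ^ 3 ≡ n [MOD p] :=
        ⟨((Nat.mod_modEq u p).pow 3).symm.trans, ((Nat.mod_modEq u p).pow 3).trans⟩
      simp only [this]) (fun p u => by split_ifs <;> norm_num [abs_of_pos])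
    (a := 1) (b := U + 1) (by omega)
  have e1 : Ico 1 (U + 1) = Ioc 0 U := by ext; simp only [mem_Ico, mem_Ioc]; omega
  have e2 : ML (fun S => c S.card) P (fun p =>
      (∑ u ∈ range p, if u ^ 3 ≡ n [MOD p] then (1 / 2 : ℝ) else 0) / p) =
      sy c P (fun p => 1 / 2 * (1 / p)) := by
    refine sum_congr rfl fun S hS => congrArg _ (prod_congr rfl fun p hp => ?_)
    obtain ⟨a1, a2, -⟩ := hP p (mem_powerset.1 hS hp)
    beta_reduce
    rw [← sum_filter, sum_const, ← rho_eq_card n p a1.ne_zero, rho_eq_one a1 a2]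
    simp only [one_smul]
    ring
  rw [e1, e2] at h
  have h3 := (abs_le.1 h).2
  push_cast at h3
  rw [← pow_mul, mul_comm K 2] at h3
  have e3 : ∀ u : ℕ, ML (fun S => c S.card) P (fun p => if u ^ 3 ≡ n [MOD p] then 1 / 2 else 0) =
      sy c P (fun p => if u ^ 3 ≡ n [MOD p] then 1 / 2 else 0) := fun u => rfl
  simp only [e3] at h3
  linarith

theorem low_tail {P : Finset ℕ} {Y K : ℕ} (hY : 1 ≤ Y) (hP : ∀ p ∈ P, p.Prime ∧ p % 3 = 2 ∧ p ≤ Y)
    {l : ℝ} (hl : l = ∑ p ∈ P, 1 / (p : ℝ)) (hK : Even K) (hlK : 3 * l ≤ K) (n U : ℕ) :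
    (((Ioc 0 U).filter fun u => ((PP P n u).card : ℝ) ≤ 11 / 21 * l).card : ℝ) ≤
      2 * U * exp (-(67 / 500 * l)) + 4 * Y ^ (2 * K) * 2 ^ K := by
  have hl0 : 0 ≤ l := hl ▸ sum_nonneg fun _ _ => by positivity
  have a2 := log_two_gt_d9
  have a3 := log_two_lt_d9
  have h1 := sy_mean hY hP (c := alt K) (K := K) (abs_alt_le K) (fun j hj => if_neg (not_le.2 hj)) n U
  have hb : ∀ p ∈ P, 0 ≤ 1 / 2 * (1 / (p : ℝ)) ∧ 1 / 2 * (1 / (p : ℝ)) ≤ 1 := fun p hp => by
    have : (1 : ℝ) ≤ p := by exact_mod_cast (hP p hp).1.one_le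
    have : 1 / (p : ℝ) ≤ 1 := by rw [div_le_one (by linarith)]; exact this
    exact ⟨by positivity, by linarith⟩
  have h2 := (bonf hb K).2
  have h3 := sy_el_le (fun p hp => (hb p hp).1) (K + 1)
  rw [← mul_sum, ← hl] at h3
  have h4 : ∏ p ∈ P, (1 - 1 / 2 * (1 / (p : ℝ))) ≤ exp (-(1 / 2 * l)) := by
    rw [hl, mul_sum, ← sum_neg_distrib, exp_sum]
    exact prod_le_prod (fun p hp => by linarith [(hb p hp).2]) fun p _ => by
      linarith [add_one_le_exp (-(1 / 2 * (1 / (p : ℝ))))]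
  have hK2 : (2 : ℝ) ^ K = exp (K * log 2) := by
    rw [exp_nat_mul, exp_log (by norm_num)]
  have h5 : exp (2 * (1 / 2 * l)) / 2 ^ (K + 1) ≤ exp (-(1 / 2 * l)) := by
    rw [div_le_iff₀ (by positivity), pow_succ, hK2, ← mul_assoc (exp _), ← exp_add]
    have : exp (2 * (1 / 2 * l)) ≤ exp (-(1 / 2 * l) + K * log 2) := exp_le_exp.2 (by nlinarith)
    linarith [exp_pos (-(1 / 2 * l) + K * log 2)]
  rw [hK.neg_one_pow, one_mul] at h2
  have h6 : ∀ u : ℕ, exp (-((PP P n u).card * log 2)) ≤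
      sy (alt K) P (fun p => if u ^ 3 ≡ n [MOD p] then 1 / 2 else 0) := fun u => by
    have b1 := (bonf (I := P) (a := fun p => if u ^ 3 ≡ n [MOD p] then 1 / 2 else 0)
      (fun p _ => by split_ifs <;> norm_num) K).1
    rw [hK.neg_one_pow, one_mul, sub_nonneg] at b1
    refine le_trans (le_of_eq ?_) b1
    rw [exp_neg, exp_nat_mul, exp_log (by norm_num), ← inv_pow, ← prod_const, PP, prod_filter]
    exact prod_congr rfl fun p _ => by split_ifs <;> norm_num
  set A := (Ioc 0 U).filter fun u => ((PP P n u).card : ℝ) ≤ 11 / 21 * l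
  have h7 : A.card * exp (-(11 / 21 * l * log 2)) ≤
      U * (2 * exp (-(1 / 2 * l))) + 4 * Y ^ (2 * K) := by
    calc _ ≤ ∑ u ∈ A, exp (-((PP P n u).card * log 2)) := by
          rw [← nsmul_eq_mul]
          exact card_nsmul_le_sum _ _ _ fun u hu =>
            exp_le_exp.2 (by nlinarith [(mem_filter.1 hu).2])
      _ ≤ ∑ u ∈ Ioc 0 U, exp (-((PP P n u).card * log 2)) :=
          sum_le_sum_of_subset_of_nonneg (filter_subset _ _) fun _ _ _ => (exp_pos _).le
      _ ≤ _ := sum_le_sum fun u _ => h6 u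
      _ ≤ _ := h1
      _ ≤ _ := by gcongr; linarith
  have h8 : exp (-(11 / 21 * l * log 2)) * exp (11 / 21 * l * log 2) = 1 := by
    rw [← exp_add]; simp
  have h9 : exp (-(1 / 2 * l)) * exp (11 / 21 * l * log 2) ≤ exp (-(67 / 500 * l)) := by
    rw [← exp_add]
    exact exp_le_exp.2 (by nlinarith)
  have h10 : exp (11 / 21 * l * log 2) ≤ 2 ^ K := hK2 ▸ exp_le_exp.2 (by nlinarith)
  calc (A.card : ℝ) = A.card * exp (-(11 / 21 * l * log 2)) * exp (11 / 21 * l * log 2) := by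
        rw [mul_assoc, h8, mul_one]
    _ ≤ (U * (2 * exp (-(1 / 2 * l))) + 4 * Y ^ (2 * K)) * exp (11 / 21 * l * log 2) := by gcongr
    _ = 2 * U * (exp (-(1 / 2 * l)) * exp (11 / 21 * l * log 2)) +
        4 * Y ^ (2 * K) * exp (11 / 21 * l * log 2) := by ring
    _ ≤ _ := by gcongr

theorem log_three_half : 404 / 1000 ≤ log (3 / 2) := by
  have h1 := le_log_one_add_of_nonneg (x := 1 / 5) (by norm_num)
  have h2 := le_log_one_add_of_nonneg (x := 1 / 4) (by norm_num)
  rw [show (3 / 2 : ℝ) = (1 + 1 / 5) * (1 + 1 / 4) by norm_num, log_mul (by norm_num) (by norm_num)]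
  norm_num at h1 h2 ⊢
  linarith

theorem high_tail {P : Finset ℕ} {Y K : ℕ} (hY : 1 ≤ Y) (hP : ∀ p ∈ P, p.Prime ∧ p % 3 = 2 ∧ p ≤ Y)
    {l : ℝ} (hl : l = ∑ p ∈ P, 1 / (p : ℝ)) (hlK : 3 * l ≤ K) (n U : ℕ) :
    (((Ioc 0 U).filter fun u => 11 / 7 * l ≤ ((PP P n u).card : ℝ)).card : ℝ) ≤
      U * exp (-(67 / 500 * l)) + 4 * Y ^ (2 * K) := by
  have hl0 : 0 ≤ l := hl ▸ sum_nonneg fun _ _ => by positivity
  have a2 := log_three_half
  set c : ℕ → ℝ := fun j => if j ≤ K then 1 else 0 with hc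
  have hc0 : ∀ j, 0 ≤ c j := fun j => by simp only [hc]; split_ifs <;> norm_num
  have h1 := sy_mean hY hP (c := c) (K := K) (fun j => by simp only [hc]; split_ifs <;> norm_num)
    (fun j hj => if_neg (not_le.2 hj)) n U
  have h2 : sy c P (fun p => 1 / 2 * (1 / p)) ≤ exp (1 / 2 * l) := by
    rw [hl, mul_sum]
    refine le_trans ?_ (prod_le_exp_sum P _ fun p _ => by positivity)
    rw [prod_one_add]
    refine sum_le_sum fun S _ => mul_le_of_le_one_left (prod_nonneg fun _ _ => by positivity) ?_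
    simp only [hc]
    split_ifs <;> norm_num
  have h0 : ∀ (u : ℕ) (S : Finset ℕ),
      0 ≤ c S.card * ∏ p ∈ S, if u ^ 3 ≡ n [MOD p] then (1 / 2 : ℝ) else 0 := fun u S =>
    mul_nonneg (hc0 _) (prod_nonneg fun _ _ => by split_ifs <;> norm_num)
  set A := (Ioc 0 U).filter fun u => 11 / 7 * l ≤ ((PP P n u).card : ℝ)
  have h6 : ∀ u ∈ A, exp (11 / 7 * l * log (3 / 2)) ≤
      sy c P (fun p => if u ^ 3 ≡ n [MOD p] then 1 / 2 else 0) := fun u hu => by
    obtain ⟨T, t1, t2⟩ := exists_subset_card_eq (Nat.ceil_le.2 (mem_filter.1 hu).2)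
    have t3 : T.card ≤ K := t2 ▸ Nat.ceil_le.2 (by linarith)
    have t4 : 11 / 7 * l ≤ T.card := t2 ▸ Nat.le_ceil _
    calc _ ≤ exp (T.card * log (3 / 2)) := exp_le_exp.2 (by nlinarith)
      _ = ∏ p ∈ T, (1 + 1 / 2 : ℝ) := by
          rw [exp_nat_mul, exp_log (by norm_num), prod_const]
          norm_num
      _ = ∑ S ∈ T.powerset, c S.card * ∏ p ∈ S, if u ^ 3 ≡ n [MOD p] then (1 / 2 : ℝ) else 0 := by
          rw [prod_one_add]
          refine sum_congr rfl fun S hS => ?_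
          have s1 := mem_powerset.1 hS
          simp only [hc, (card_le_card s1).trans t3, if_true, one_mul]
          exact prod_congr rfl fun p hp => (if_pos (mem_filter.1 (t1 (s1 hp))).2).symm
      _ ≤ _ := sum_le_sum_of_subset_of_nonneg
          (powerset_mono.2 (t1.trans (filter_subset _ _))) fun S _ _ => h0 u S
  have h7 : A.card * exp (11 / 7 * l * log (3 / 2)) ≤ U * exp (1 / 2 * l) + 4 * Y ^ (2 * K) := by
    calc _ ≤ ∑ u ∈ A, sy c P (fun p => if u ^ 3 ≡ n [MOD p] then 1 / 2 else 0) := by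
          rw [← nsmul_eq_mul]
          exact card_nsmul_le_sum _ _ _ h6
      _ ≤ _ := sum_le_sum_of_subset_of_nonneg (filter_subset _ _) fun u _ _ =>
          sum_nonneg fun S _ => h0 u S
      _ ≤ _ := h1
      _ ≤ _ := by gcongr
  have h8 : exp (1 / 2 * l) ≤ exp (-(67 / 500 * l)) * exp (11 / 7 * l * log (3 / 2)) := by
    rw [← exp_add]
    exact exp_le_exp.2 (by nlinarith)
  have h9 : 1 ≤ exp (11 / 7 * l * log (3 / 2)) := one_le_exp (by nlinarith)
  refine le_of_mul_le_mul_right (h7.trans ?_) (exp_pos _)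
  rw [add_mul, mul_assoc (U : ℝ)]
  exact add_le_add (mul_le_mul_of_nonneg_left h8 (Nat.cast_nonneg _))
    (le_mul_of_one_le_right (by positivity) h9)

/-- lower bound of Mertens type for the primes `2 mod 3` -/
theorem mertens_two : ∃ C : ℝ, ∀ N : ℕ, 2 ≤ N → 4995 / 10000 * log (log N) - C ≤
    ∑ p ∈ Ioc 0 N with p.Prime ∧ p % 3 = 2, 1 / (p : ℝ) := by
  have hu : IsUnit (2 : ZMod 3) := by decide
  have h1 := Pool.Agent.Shared.PNT.pnt_theta_residueClass (q := 3) hu
  have ht : (Nat.totient 3 : ℝ)⁻¹ = 1 / 2 := by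
    rw [Nat.totient_prime Nat.prime_three]
    norm_num
  rw [ht] at h1
  obtain ⟨N0, h2⟩ := eventually_atTop.1 (tendsto_natCast_atTop_atTop.eventually
    (h1.eventually (lt_mem_nhds (show (4995 / 10000 : ℝ) < 1 / 2 by norm_num))))
  set M := max N0 2 with hM
  have hth : ∀ N, M ≤ N → 4995 / 10000 * (N : ℝ) ≤
      ∑ p ∈ Ioc 0 N with p.Prime ∧ p % 3 = 2, log p := fun N hN => by
    have a1 := h2 N ((le_max_left _ _).trans hN)
    have a2 : (0 : ℝ) < N := by exact_mod_cast (by omega : 0 < N)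
    rw [Nat.floor_natCast, lt_div_iff₀ a2] at a1
    refine a1.le.trans (le_of_eq (sum_congr ?_ fun _ _ => rfl))
    ext p
    simp only [mem_filter, mem_Icc, mem_Ioc]
    have := ZMod.natCast_eq_natCast_iff' p 2 3
    norm_num at this
    rw [this]
    rfl
  have key : ∀ N, M ≤ N → 4995 / 10000 * (log (log (N + 1)) - log (log (M + 1))) ≤
      ∑ p ∈ Ioc 0 N with p.Prime ∧ p % 3 = 2, 1 / (p : ℝ) -
        (∑ p ∈ Ioc 0 N with p.Prime ∧ p % 3 = 2, log p) / (N * log N) +
        (∑ p ∈ Ioc 0 M with p.Prime ∧ p % 3 = 2, log p) / (M * log M) := by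
    intro N hN
    induction N, hN using Nat.le_induction with
    | base =>
      have : 0 ≤ ∑ p ∈ Ioc 0 M with p.Prime ∧ p % 3 = 2, 1 / (p : ℝ) :=
        sum_nonneg fun _ _ => by positivity
      linarith
    | succ N hN ih =>
      have h0 : (2 : ℝ) ≤ N := by exact_mod_cast (le_max_right _ _).trans hN
      have hL : 0 < log N := log_pos (by linarith)
      have hL' : log N ≤ log (N + 1) := log_le_log (by linarith) (by linarith)
      have hA := hth N hN
      set A := ∑ p ∈ Ioc 0 N with p.Prime ∧ p % 3 = 2, log p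
      set S := ∑ p ∈ Ioc 0 N with p.Prime ∧ p % 3 = 2, 1 / (p : ℝ)
      push_cast
      set L := log N
      set L' := log (N + 1) with hL'd
      have hp : 0 < L' := hL.trans_le hL'
      have e1 : ∑ p ∈ Ioc 0 (N + 1) with p.Prime ∧ p % 3 = 2, 1 / (p : ℝ) -
          (∑ p ∈ Ioc 0 (N + 1) with p.Prime ∧ p % 3 = 2, log p) / ((N + 1) * L') =
          S - A / ((N + 1) * L') := by
        rw [sum_filter, sum_filter, sum_Ioc_succ_top (Nat.zero_le N),
          sum_Ioc_succ_top (Nat.zero_le N), ← sum_filter, ← sum_filter]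
        split_ifs
        · push_cast
          rw [← hL'd]
          field_simp
          ring
        · simp [S, A]
      rw [e1]
      have b1 : log (N + 1 + 1) - L' ≤ 1 / (N + 1) := by
        rw [hL'd, ← log_div (by linarith) (by linarith)]
        refine (log_le_sub_one_of_pos (by positivity)).trans (le_of_eq ?_)
        field_simp
        ring
      have b0 : 0 < log ((N : ℝ) + 1 + 1) := log_pos (by linarith)
      have b2 : log (log (N + 1 + 1)) - log L' ≤ 1 / ((N + 1) * L) := by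
        rw [← log_div b0.ne' hp.ne']
        refine (log_le_sub_one_of_pos (by positivity)).trans ?_
        rw [div_sub_one hp.ne', ← div_div]
        gcongr
      have b3 : 1 / (N * ((N + 1) * L)) ≤ 1 / (N * L) - 1 / ((N + 1) * L') := by
        have : 1 / ((N + 1) * L') ≤ 1 / ((N + 1) * L) := by gcongr
        have e : 1 / (N * ((N + 1) * L)) = 1 / (N * L) - 1 / ((N + 1) * L) := by
          field_simp
          ring
        linarith
      have b4 := mul_le_mul hA b3 (by positivity) (le_trans (by positivity) hA)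
      have e2 : 4995 / 10000 * (N : ℝ) * (1 / (N * ((N + 1) * L))) =
          4995 / 10000 * (1 / ((N + 1) * L)) := by field_simp
      have e3 : A * (1 / (N * L) - 1 / ((N + 1) * L')) = A / (N * L) - A / ((N + 1) * L') := by ring
      linarith
  set D := (∑ p ∈ Ioc 0 M with p.Prime ∧ p % 3 = 2, log p) / (M * log M) with hD
  have hD0 : 0 ≤ D := div_nonneg (sum_nonneg fun p _ => log_natCast_nonneg p)
    (mul_nonneg (Nat.cast_nonneg _) (log_natCast_nonneg _))
  refine ⟨4995 / 10000 * log (log (M + 1)) + D, fun N hN => ?_⟩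
  have h0 : (2 : ℝ) ≤ N := by exact_mod_cast hN
  have hL : 0 < log N := log_pos (by linarith)
  rcases le_total M N with h | h
  · have a1 := key N h
    have a2 : log (log N) ≤ log (log (N + 1)) :=
      log_le_log hL (log_le_log (by linarith) (by linarith))
    have a3 : 0 ≤ (∑ p ∈ Ioc 0 N with p.Prime ∧ p % 3 = 2, log p) / (N * log N) :=
      div_nonneg (sum_nonneg fun p _ => log_natCast_nonneg p) (by positivity)
    linarith
  · have a1 : (N : ℝ) ≤ M := by exact_mod_cast h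
    have a2 : log (log N) ≤ log (log (M + 1)) :=
      log_le_log hL (log_le_log (by linarith) (by linarith))
    have a3 : 0 ≤ ∑ p ∈ Ioc 0 N with p.Prime ∧ p % 3 = 2, 1 / (p : ℝ) :=
      sum_nonneg fun _ _ => by positivity
    linarith

/-- lower bound of Mertens type for all primes -/
theorem mertens_all : ∀ N : ℕ, 2 ≤ N → log (log N) - 5 ≤ ∑ p ∈ Ioc 0 N with p.Prime, 1 / (p : ℝ) := by
  intro N hN
  have h0 : (2 : ℝ) ≤ N := by exact_mod_cast hN
  have hL : 0 < log N := log_pos (by linarith)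
  have h1 := VV_le N
  have e : Nat.primesLE N = (Ioc 0 N).filter Nat.Prime := by
    ext p
    simp only [Nat.mem_primesLE, mem_filter, mem_Ioc]
    exact ⟨fun h => ⟨⟨h.2.pos, h.1⟩, h.2⟩, fun h => ⟨h.1.2, h.2⟩⟩
  have h2 : exp (-(∑ p ∈ Ioc 0 N with p.Prime, (1 / (p : ℝ) + 2 * (1 / (p : ℝ) ^ 2)))) ≤ VV N := by
    rw [VV, e, ← sum_neg_distrib, exp_sum]
    refine prod_le_prod (fun _ _ => (exp_pos _).le) fun p hp => ?_
    have a1 : (2 : ℝ) ≤ p := by exact_mod_cast (mem_filter.1 hp).2.two_le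
    have a2 : 1 / (p : ℝ) ≤ 1 / 2 := one_div_le_one_div_of_le (by norm_num) a1
    have a3 : 0 < 1 / (p : ℝ) := by positivity
    rw [← one_div_pow, exp_neg, inv_le_comm₀ (exp_pos _) (by linarith)]
    refine le_trans ?_ (add_one_le_exp _)
    rw [inv_le_iff_one_le_mul₀ (by linarith)]
    nlinarith [mul_pos a3 a3]
  have h3 : ∑ p ∈ Ioc 0 N with p.Prime, 1 / (p : ℝ) ^ 2 ≤ 2 := by
    refine le_trans (sum_le_sum_of_subset_of_nonneg (fun p hp => ?_) fun _ _ _ => by positivity)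
      (sum_inv_sq_le N)
    have := mem_Ioc.1 (mem_filter.1 hp).1
    exact mem_Icc.2 this
  rw [sum_add_distrib, ← mul_sum] at h2
  have h4 := log_le_log (mul_pos (exp_pos _) hL) ((mul_le_mul_of_nonneg_right h2 hL.le).trans h1)
  rw [log_mul (exp_pos _).ne' hL.ne', log_exp] at h4
  linarith [log_two_lt_d9]

end Pool.Agent.Lib.MP_9c5702_nt.Save
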