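import Pool.Agent.Lib.MP_9c5702_nt.Save.Mult
import Pool.Agent.Lib.MP_9c5702_nt.Save.Tails

/-! Reduction of the count of solutions to atypical values of `x`, `y`, `z` or `x + y + z`. -/

set_option autoImplicit false

namespace Pool.Agent.Lib.MP_9c5702_nt.Save

open Finset Real MP_488d93_nt

theorem card_view (n κ : ℕ) (A : Finset ℕ) (hA : ∀ u ∈ A, u ^ 3 ≠ n) (T : Finset (ℕ × ℕ × ℕ))
    (x y z : ℕ × ℕ × ℕ → ℕ) (hinj : ∀ p q, x p = x q → y p = y q → z p = z q → p = q)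
    (hT : ∀ p ∈ T, x p ^ 3 + y p ^ 3 + z p ^ 3 = n ∧ 1 ≤ x p ∧ z p + κ * (x p + y p) ∈ A) :
    T.card ≤ 2 * ∑ u ∈ A, (DD κ n u).card := by
  rw [← card_sigma, mul_comm, ← Fintype.card_bool, ← card_univ, ← card_product]
  refine card_le_card_of_injOn
    (fun p => (⟨z p + κ * (x p + y p), x p + y p⟩, decide (x p ≤ y p))) (fun p hp => ?_)
    fun p hp q hq e => ?_
  · obtain ⟨h1, -, h3⟩ := hT p hp
    refine mem_product.2 ⟨mem_sigma.2 ⟨h3, mem_filter.2 ⟨Nat.mem_divisors.2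
      ⟨dvd_mm.2 ?_, mm_ne (hA _ h3)⟩, 3 * (x p + y p) * (x p - y p), ?_⟩⟩, mem_univ _⟩
    · rw [Nat.modEq_iff_dvd, ← h1]
      push_cast
      exact ⟨x p ^ 2 - x p * y p + y p ^ 2 - 3 * κ * z p ^ 2 - 3 * κ ^ 2 * z p * (x p + y p) -
        κ ^ 3 * (x p + y p) ^ 2, by ring⟩
    · rw [HZ, ← h1]
      push_cast
      ring
  · obtain ⟨e1, e2⟩ := Prod.ext_iff.1 e
    have e3 : z p + κ * (x p + y p) = z q + κ * (x q + y q) := congrArg Sigma.fst e1
    have e4 : x p + y p = x q + y q := congrArg (fun t : (_ : ℕ) × ℕ => t.2) e1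
    have e5 : x p ≤ y p ↔ x q ≤ y q := by simpa using e2
    obtain ⟨a1, a2, -⟩ := hT p hp
    obtain ⟨b1, -, -⟩ := hT q hq
    rw [e4] at e3
    have hz : z p = z q := by omega
    have hx : x p = x q := by
      have h6 : (x p : ℤ) ^ 3 + (y p : ℤ) ^ 3 = (x q : ℤ) ^ 3 + (y q : ℤ) ^ 3 := by
        have : x p ^ 3 + y p ^ 3 = x q ^ 3 + y q ^ 3 := by rw [hz] at a1; omega
        exact_mod_cast this
      have h7 : (y q : ℤ) = x p + y p - x q := by omega
      rw [h7] at h6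
      have h9 : (3 * (x p + y p : ℤ)) * (((x p : ℤ) - x q) * (x q - y p)) = 0 := by
        linear_combination h6
      rcases mul_eq_zero.1 h9 with h | h
      · omega
      · rcases mul_eq_zero.1 h with h | h <;> omega
    exact hinj p q hx (by omega) hz

theorem reduce (n : ℕ) (A0 A1 : Finset ℕ) (h0 : ∀ u ∈ A0, u ^ 3 ≠ n) (h1 : ∀ u ∈ A1, u ^ 3 ≠ n)
    (h : ∀ x y z, 0 < x → 0 < y → 0 < z → x ^ 3 + y ^ 3 + z ^ 3 = n →
      x ∈ A0 ∨ y ∈ A0 ∨ z ∈ A0 ∨ x + y + z ∈ A1) :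
    r33 n ≤ 6 * ∑ u ∈ A0, (DD 0 n u).card + 2 * ∑ u ∈ A1, (DD 1 n u).card := by
  set S := ((Icc 1 n) ×ˢ (Icc 1 n) ×ˢ (Icc 1 n)).filter
    (fun p : ℕ × ℕ × ℕ => p.1 ^ 3 + p.2.1 ^ 3 + p.2.2 ^ 3 = n) with hS
  have hm : ∀ p ∈ S, 0 < p.1 ∧ 0 < p.2.1 ∧ 0 < p.2.2 ∧ p.1 ^ 3 + p.2.1 ^ 3 + p.2.2 ^ 3 = n := by
    intro p hp
    simp only [hS, mem_filter, mem_product, mem_Icc] at hp
    exact ⟨hp.1.1.1, hp.1.2.1.1, hp.1.2.2.1, hp.2⟩
  have e1 := card_view n 0 A0 h0 (S.filter fun p => p.1 ∈ A0) (fun p => p.2.1) (fun p => p.2.2)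
    (fun p => p.1) (fun p q a b c => Prod.ext c (Prod.ext a b)) fun p hp => by
      have := hm p (mem_filter.1 hp).1
      exact ⟨by omega, this.2.1, by simpa using (mem_filter.1 hp).2⟩
  have e2 := card_view n 0 A0 h0 (S.filter fun p => p.2.1 ∈ A0) (fun p => p.1) (fun p => p.2.2)
    (fun p => p.2.1) (fun p q a b c => Prod.ext a (Prod.ext c b)) fun p hp => by
      have := hm p (mem_filter.1 hp).1
      exact ⟨by omega, this.1, by simpa using (mem_filter.1 hp).2⟩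
  have e3 := card_view n 0 A0 h0 (S.filter fun p => p.2.2 ∈ A0) (fun p => p.1) (fun p => p.2.1)
    (fun p => p.2.2) (fun p q a b c => Prod.ext a (Prod.ext b c)) fun p hp => by
      have := hm p (mem_filter.1 hp).1
      exact ⟨this.2.2.2, this.1, by simpa using (mem_filter.1 hp).2⟩
  have e4 := card_view n 1 A1 h1 (S.filter fun p => p.1 + p.2.1 + p.2.2 ∈ A1) (fun p => p.1)
    (fun p => p.2.1) (fun p => p.2.2) (fun p q a b c => Prod.ext a (Prod.ext b c)) fun p hp => by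
      have := hm p (mem_filter.1 hp).1
      exact ⟨this.2.2.2, this.1, by rw [one_mul, add_comm]; exact (mem_filter.1 hp).2⟩
  have hsub : S ⊆ (S.filter fun p => p.1 ∈ A0) ∪ ((S.filter fun p => p.2.1 ∈ A0) ∪
      ((S.filter fun p => p.2.2 ∈ A0) ∪ (S.filter fun p => p.1 + p.2.1 + p.2.2 ∈ A1))) := by
    intro p hp
    obtain ⟨a, b, c, d⟩ := hm p hp
    simpa only [mem_union, mem_filter, hp, true_and] using h _ _ _ a b c d
  have h5 := (card_le_card hsub).trans ((card_union_le _ _).trans (Nat.add_le_add_left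
    ((card_union_le _ _).trans (Nat.add_le_add_left (card_union_le _ _) _)) _))
  change S.card ≤ _
  omega

theorem dvd_add_of_mem {P : Finset ℕ} (hP : ∀ p ∈ P, p.Prime ∧ p % 3 = 2) {n x y z p : ℕ}
    (h : x ^ 3 + y ^ 3 + z ^ 3 = n) (hp : p ∈ PP P n z) : p ∣ x + y := by
  obtain ⟨h1, h2⟩ := mem_filter.1 hp
  rw [← ZMod.natCast_eq_natCast_iff, ← h] at h2
  rw [← ZMod.natCast_eq_zero_iff]
  push_cast at h2 ⊢
  rw [cube_inj (hP p h1).1 (hP p h1).2 (x := x) (y := -y) (by linear_combination -h2)]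
  ring

theorem typical {P : Finset ℕ} (hP : ∀ p ∈ P, p.Prime ∧ p % 3 = 2) {n x y z : ℕ}
    (h : x ^ 3 + y ^ 3 + z ^ 3 = n) (hs : ∀ p ∈ P, ¬ (x + y + z) ^ 3 ≡ n [MOD p ^ 2]) :
    (PP P n x).card + (PP P n y).card + (PP P n z).card ≤ (PP P n (x + y + z)).card := by
  have e : ∀ D, D ∣ (x + y) * (y + z) * (z + x) → (x + y + z) ^ 3 ≡ n [MOD D] := fun D hD => by
    rw [show (x + y + z) ^ 3 = n + 3 * ((x + y) * (y + z) * (z + x)) by rw [← h]; ring]
    exact ((Nat.modEq_iff_dvd' (Nat.le_add_right _ _)).2 (by simpa using hD.mul_left 3)).symm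
  have hz : ∀ p ∈ PP P n z, p ∣ x + y := fun p => dvd_add_of_mem hP h
  have hx : ∀ p ∈ PP P n x, p ∣ y + z := fun p => dvd_add_of_mem hP (by omega)
  have hy : ∀ p ∈ PP P n y, p ∣ z + x := fun p => dvd_add_of_mem hP (by omega)
  have d1 : Disjoint (PP P n x) (PP P n y) := disjoint_left.2 fun p a b =>
    hs p (mem_filter.1 a).1 (e _ (by
      rw [sq, mul_assoc]
      exact (mul_dvd_mul (hx p a) (hy p b)).mul_left _))
  have d2 : Disjoint (PP P n x ∪ PP P n y) (PP P n z) := disjoint_left.2 fun p a b =>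
    hs p (mem_filter.1 b).1 (e _ (by
      rw [sq]
      rcases mem_union.1 a with a | a
      · exact (mul_dvd_mul (hz p b) (hx p a)).mul_right _
      · exact mul_dvd_mul ((hz p b).mul_right _) (hy p a)))
  rw [← card_union_of_disjoint d1, ← card_union_of_disjoint d2]
  refine card_le_card fun p hp => ?_
  rcases mem_union.1 hp with a | a
  · rcases mem_union.1 a with a | a
    · exact mem_filter.2 ⟨(mem_filter.1 a).1, e _ (((hx p a).mul_left _).mul_right _)⟩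
    · exact mem_filter.2 ⟨(mem_filter.1 a).1, e _ ((hy p a).mul_left _)⟩
  · exact mem_filter.2 ⟨(mem_filter.1 a).1, e _ (((hz p a).mul_right _).mul_right _)⟩

end Pool.Agent.Lib.MP_9c5702_nt.Save
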